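import Pool.Agent.TD.Q.Stmts

/-!
# (Q1) Separation of the points of a fibre of an integral homomorphism (MP_90358a_ag)
-/

open scoped Topology NNReal
open Polynomial

namespace Pool.Agent.TD.Q

namespace Q1

section
variable {H B : Type} [NormedField H] [CommRing B] [Algebra H B]

theorem v_smul (w : Ber H B) (h : H) (x : B) : w.v (h • x) = ‖h‖ * w.v x := by
  rw [Algebra.smul_def, w.mul, w.ext]

/-- Approximation by fractions of `R` with coefficients in `C`. -/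
theorem approx {K R C : Type} [NormedField K] [CommRing R] [CommRing C] [Algebra K R]
    [Algebra K C] (φ : R →ₐ[K] C) (y : Ber K R) (ι : R →+* H) (j : C →+* B) (hres : IsRes y ι)
    (hj : ∀ r, j (φ r) = algebraMap H B (ι r)) (hspan : Submodule.span H (Set.range j) = ⊤)
    (T : Finset (Ber H B)) (b₀ : B) : ∀ ε : ℝ, 0 < ε → ∃ (b : C) (r : R), ι r ≠ 0 ∧
      ∀ w ∈ T, w.v (b₀ - (ι r)⁻¹ • j b) ≤ ε := by
  have hmem : b₀ ∈ Submodule.span H (Set.range j) := hspan ▸ Submodule.mem_top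
  induction hmem using Submodule.span_induction with
  | mem x hx =>
    obtain ⟨c, rfl⟩ := hx
    intro ε hε
    refine ⟨c, 1, ?_, fun w _ => ?_⟩
    · rw [map_one]
      exact one_ne_zero
    · rw [map_one, inv_one, one_smul, sub_self, w.zero]
      exact hε.le
  | zero =>
    intro ε hε
    refine ⟨0, 1, ?_, fun w _ => ?_⟩
    · rw [map_one]
      exact one_ne_zero
    · rw [map_zero, smul_zero, sub_self, w.zero]
      exact hε.le
  | add x₁ x₂ _ _ h₁ h₂ =>
    intro ε hε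
    obtain ⟨b₁, r₁, hr₁, hb₁⟩ := h₁ ε hε
    obtain ⟨b₂, r₂, hr₂, hb₂⟩ := h₂ ε hε
    refine ⟨φ r₂ * b₁ + φ r₁ * b₂, r₁ * r₂, ?_, fun w hw => ?_⟩
    · rw [map_mul]
      exact mul_ne_zero hr₁ hr₂
    · have e : x₁ + x₂ - (ι (r₁ * r₂))⁻¹ • j (φ r₂ * b₁ + φ r₁ * b₂) =
          (x₁ - (ι r₁)⁻¹ • j b₁) + (x₂ - (ι r₂)⁻¹ • j b₂) := by
        have e1 : (ι (r₁ * r₂))⁻¹ • j (φ r₂ * b₁ + φ r₁ * b₂) =
            (ι r₁)⁻¹ • j b₁ + (ι r₂)⁻¹ • j b₂ := by
          rw [map_mul, map_add, map_mul, map_mul, hj, hj, ← Algebra.smul_def, ← Algebra.smul_def,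
            smul_add, smul_smul, smul_smul]
          congr 2
          · rw [mul_inv, mul_assoc, inv_mul_cancel₀ hr₂, mul_one]
          · rw [mul_inv, mul_right_comm, inv_mul_cancel₀ hr₁, one_mul]
        rw [e1]
        abel
      rw [e]
      exact (w.add _ _).trans (max_le (hb₁ w hw) (hb₂ w hw))
  | smul h x _ hx =>
    intro ε hε
    have hn : 0 < ‖h‖ + 1 := by positivity
    obtain ⟨b, r, hr, hb⟩ := hx (ε / (‖h‖ + 1)) (by positivity)
    obtain ⟨M, hM⟩ : ∃ M, M = ∑ w ∈ T, w.v ((ι r)⁻¹ • j b) := ⟨_, rfl⟩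
    have hM0 : 0 ≤ M := by
      rw [hM]
      exact Finset.sum_nonneg fun w _ => w.nonneg _
    have hMw : ∀ w ∈ T, w.v ((ι r)⁻¹ • j b) ≤ M := by
      intro w hw
      rw [hM]
      exact Finset.single_le_sum (f := fun w : Ber H B => w.v ((ι r)⁻¹ • j b))
        (fun w _ => w.nonneg _) hw
    obtain ⟨a, s, hs, has⟩ := hres.dense h (ε / (M + 1)) (by positivity)
    refine ⟨φ a * b, s * r, ?_, fun w hw => ?_⟩
    · rw [map_mul]
      exact mul_ne_zero hs hr
    · have e : h • x - (ι (s * r))⁻¹ • j (φ a * b) =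
          h • (x - (ι r)⁻¹ • j b) + (h - ι a / ι s) • ((ι r)⁻¹ • j b) := by
        have e1 : (ι (s * r))⁻¹ • j (φ a * b) = (ι a / ι s) • ((ι r)⁻¹ • j b) := by
          rw [map_mul, map_mul, hj, ← Algebra.smul_def, smul_smul, smul_smul]
          congr 1
          rw [mul_inv, div_eq_mul_inv]
          ring
        rw [e1, smul_sub, sub_smul]
        abel
      rw [e]
      refine (w.add _ _).trans (max_le ?_ ?_)
      · rw [v_smul]
        calc ‖h‖ * w.v (x - (ι r)⁻¹ • j b) ≤ ‖h‖ * (ε / (‖h‖ + 1)) :=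
              mul_le_mul_of_nonneg_left (hb w hw) (norm_nonneg h)
          _ ≤ (‖h‖ + 1) * (ε / (‖h‖ + 1)) := by
              have : 0 ≤ ε / (‖h‖ + 1) := by positivity
              nlinarith
          _ = ε := by field_simp
      · rw [v_smul]
        calc ‖h - ι a / ι s‖ * w.v ((ι r)⁻¹ • j b) ≤ (ε / (M + 1)) * M :=
              mul_le_mul has.le (hMw w hw) (w.nonneg _) (by positivity)
          _ ≤ (ε / (M + 1)) * (M + 1) := by
              have : 0 ≤ ε / (M + 1) := by positivity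
              nlinarith
          _ = ε := by field_simp

end

end Q1

open Q1 in
/-- (Q1) separation of points. -/
theorem Q1_thm (h0 : Q0_Stmt) (hU : QU_Stmt) : Q1_Stmt := by
  classical
  intro K R C _ _ _ _ _ φ hint y S₀ S₁ hS₀ hS₁ hdisj ε hε
  obtain ⟨H, B, iNF, iU, iC, iCR, iA, ι, j, hres, hj, hspan, hInt, -, hpt⟩ := h0 K R C φ y
  have hIntB : Algebra.IsIntegral H B := hInt hint
  obtain ⟨hmax, hker⟩ := hU H B
  have hall : ∀ z : {z // z ∈ S₀ ∪ S₁}, ∃ w : Ber H B, ∀ c, w.v (j c) = z.1.v c := by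
    rintro ⟨z, hz⟩
    rcases Finset.mem_union.mp hz with hz | hz
    · exact hpt z (hS₀ z hz)
    · exact hpt z (hS₁ z hz)
  choose W hW using hall
  have hWinj : ∀ z z', W z = W z' → z = z' := by
    intro z z' h
    apply Subtype.ext
    apply Ber.ext_v
    intro c
    rw [← hW z, ← hW z', h]
  -- the Chinese remainder theorem
  have hcop : Pairwise (Function.onFun IsCoprime fun z : {z // z ∈ S₀ ∪ S₁} => (W z).ker) := by
    intro z z' hne
    have h1 : (W z).ker ≠ (W z').ker := fun h => hne (hWinj z z' (hker _ _ h))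
    change IsCoprime (W z).ker (W z').ker
    rw [Ideal.isCoprime_iff_sup_eq]
    exact Ideal.IsMaximal.coprime_of_ne (hmax _) (hmax _) h1
  obtain ⟨b₀, hb₀⟩ := Ideal.exists_forall_sub_mem_ideal hcop
    (fun z : {z // z ∈ S₀ ∪ S₁} => if z.1 ∈ S₀ then (1 : B) else 0)
  obtain ⟨b, r, hr, hb⟩ := approx φ y ι j hres hj hspan (Finset.univ.image W) b₀ ε hε
  have hyr : y.v r = ‖ι r‖ := (hres.norm r).symm
  have hb' : ∀ z, (W z).v (b₀ - (ι r)⁻¹ • j b) ≤ ε := fun z =>
    hb (W z) (Finset.mem_image_of_mem W (Finset.mem_univ z))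
  have hjb : j b = ι r • ((ι r)⁻¹ • j b) := by
    rw [smul_smul, mul_inv_cancel₀ hr, one_smul]
  refine ⟨b, r, ?_, ?_, ?_⟩
  · rw [hyr]
    exact norm_ne_zero_iff.mpr hr
  · intro z hz
    have hzm : z ∈ S₀ ∪ S₁ := Finset.mem_union_left _ hz
    have h1 := hb₀ ⟨z, hzm⟩
    rw [Ber.mem_ker] at h1
    simp only [if_pos hz] at h1
    have h2 : z.v (b - φ r) = (W ⟨z, hzm⟩).v (j (b - φ r)) := (hW ⟨z, hzm⟩ _).symm
    have h3 : j (b - φ r) = ι r • (-(b₀ - (ι r)⁻¹ • j b) + (b₀ - 1)) := by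
      rw [map_sub, hj, Algebra.algebraMap_eq_smul_one]
      have h4 : -(b₀ - (ι r)⁻¹ • j b) + (b₀ - 1) = (ι r)⁻¹ • j b - 1 := by abel
      rw [h4, smul_sub, ← hjb]
    rw [h2, h3, v_smul, ← hyr, mul_comm]
    refine mul_le_mul_of_nonneg_right ?_ (y.nonneg r)
    refine ((W ⟨z, hzm⟩).add _ _).trans (max_le ?_ ?_)
    · rw [(W ⟨z, hzm⟩).neg]
      exact hb' _
    · rw [h1]
      exact hε.le
  · intro z hz
    have hzm : z ∈ S₀ ∪ S₁ := Finset.mem_union_right _ hz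
    have hz0 : z ∉ S₀ := fun h => Finset.disjoint_left.mp hdisj h hz
    have h1 := hb₀ ⟨z, hzm⟩
    rw [Ber.mem_ker] at h1
    simp only [if_neg hz0, sub_zero] at h1
    have h2 : z.v b = (W ⟨z, hzm⟩).v (j b) := (hW ⟨z, hzm⟩ _).symm
    have h3 : j b = ι r • (-(b₀ - (ι r)⁻¹ • j b) + b₀) := by
      have h4 : -(b₀ - (ι r)⁻¹ • j b) + b₀ = (ι r)⁻¹ • j b := by abel
      rw [h4, ← hjb]
    rw [h2, h3, v_smul, ← hyr, mul_comm]
    refine mul_le_mul_of_nonneg_right ?_ (y.nonneg r)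
    refine ((W ⟨z, hzm⟩).add _ _).trans (max_le ?_ ?_)
    · rw [(W ⟨z, hzm⟩).neg]
      exact hb' _
    · rw [h1]
      exact hε.le

end Pool.Agent.TD.Q
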