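import Pool.Agent.TD.Q.Stmts

/-!
# (Q2) transitivity of a finite group on the fibres of `M(C) → M(C^G)` (MP_90358a_ag)
-/

open scoped Topology NNReal

namespace Pool.Agent.TD.Q.Q2

/-- (Q2) from (Q1). -/
theorem main (h1 : Q1_Stmt) {K R C G : Type} [NormedField K] [CommRing R] [CommRing C]
    [Algebra K R] [Algebra K C] [Group G] [Finite G] (i : R →ₐ[K] C) (ρ : G →* (C ≃ₐ[K] C))
    (h : IsInv i ρ) (z₁ z₂ : Ber K C) (hz : Ber.res i z₁ = Ber.res i z₂) :
    ∃ g, z₂ = act ρ g z₁ := by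
  classical
  have := Fintype.ofFinite G
  by_contra hc
  push Not at hc
  let S₀ : Finset (Ber K C) := Finset.univ.image fun g : G => act ρ g z₁
  let S₁ : Finset (Ber K C) := Finset.univ.image fun g : G => act ρ g z₂
  have hS₀ : ∀ z ∈ S₀, Ber.res i z = Ber.res i z₁ := by
    intro z hzS
    obtain ⟨g, -, rfl⟩ := Finset.mem_image.1 hzS
    exact h.res_act g z₁
  have hS₁ : ∀ z ∈ S₁, Ber.res i z = Ber.res i z₁ := by
    intro z hzS
    obtain ⟨g, -, rfl⟩ := Finset.mem_image.1 hzS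
    rw [h.res_act g z₂, hz]
  have hdis : Disjoint S₀ S₁ := by
    rw [Finset.disjoint_left]
    intro z hz0 hz1
    obtain ⟨g, -, hg⟩ := Finset.mem_image.1 hz0
    obtain ⟨g', -, hg'⟩ := Finset.mem_image.1 hz1
    apply hc (g * g'⁻¹)
    rw [act_mul, hg, ← hg', act_inv_act]
  obtain ⟨b, r, hr, hb0, hb1⟩ := h1 K R C i h.isIntegral (Ber.res i z₁) S₀ S₁ hS₀ hS₁ hdis
    (1 / 2) (by norm_num)
  have hrpos : 0 < (Ber.res i z₁).v r := lt_of_le_of_ne ((Ber.res i z₁).nonneg r) (Ne.symm hr)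
  set t := (Ber.res i z₁).v r with ht
  -- on the orbit of `z₁`, `|b| = t`
  have hv0 : ∀ g : G, z₁.v (ρ g b) = t := by
    intro g
    have hmem : act ρ g z₁ ∈ S₀ := Finset.mem_image_of_mem _ (Finset.mem_univ g)
    have hres := hS₀ _ hmem
    have hval : (act ρ g z₁).v (i r) = t := by
      rw [ht, ← hres, Ber.res_v]
    have hlt : (act ρ g z₁).v (i r - b) < (act ρ g z₁).v (i r) := by
      rw [Ber.sub_comm, hval]
      have := hb0 _ hmem
      linarith
    have := Ber.sub_eq _ hlt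
    rw [hval] at this
    exact this
  have hv1 : ∀ g : G, z₂.v (ρ g b) ≤ t / 2 := by
    intro g
    have hmem : act ρ g z₂ ∈ S₁ := Finset.mem_image_of_mem _ (Finset.mem_univ g)
    have := hb1 _ hmem
    rw [act_v] at this
    linarith
  -- the norm of `b`
  have hinv : ∀ g : G, ρ g (∏ g' : G, ρ g' b) = ∏ g' : G, ρ g' b := by
    intro g
    rw [map_prod]
    refine Fintype.prod_equiv (Equiv.mulLeft g) _ _ fun g' => ?_
    rw [Equiv.coe_mulLeft, map_mul]
    rfl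
  obtain ⟨r', hr'⟩ := h.inv _ hinv
  have e0 : z₁.v (i r') = t ^ Fintype.card G := by
    rw [hr', Ber.prod, Finset.prod_congr rfl fun g _ => hv0 g, Finset.prod_const,
      Finset.card_univ]
  have e1 : z₂.v (i r') ≤ (t / 2) ^ Fintype.card G := by
    rw [hr', Ber.prod]
    calc ∏ g : G, z₂.v (ρ g b) ≤ ∏ _g : G, t / 2 :=
          Finset.prod_le_prod (fun g _ => z₂.nonneg _) fun g _ => hv1 g
      _ = _ := by rw [Finset.prod_const, Finset.card_univ]
  have e2 : z₁.v (i r') = z₂.v (i r') := by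
    rw [← Ber.res_v, ← Ber.res_v, hz]
  have hcard : Fintype.card G ≠ 0 := Fintype.card_ne_zero
  have e3 : (t / 2) ^ Fintype.card G < t ^ Fintype.card G :=
    pow_lt_pow_left₀ (by linarith) (by linarith) hcard
  rw [e0] at e2
  linarith

end Pool.Agent.TD.Q.Q2

theorem Pool.Agent.TD.Q.Q2_thm (h1 : Pool.Agent.TD.Q.Q1_Stmt) : Pool.Agent.TD.Q.Q2_Stmt :=
  fun _ _ _ _ _ _ _ _ _ _ _ i ρ h z₁ z₂ hz => Pool.Agent.TD.Q.Q2.main h1 i ρ h z₁ z₂ hz
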