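import Pool.Agent.TD.Q.Stmts

/-!
# (Q2') openness for rings of invariants of finite groups
-/

open scoped Topology NNReal

namespace Pool.Agent.TD.Q

theorem Q2o_thm (h2 : Q2_Stmt) : Q2o_Stmt := by
  intro K R C G _ _ _ _ _ _ _ _ i ρ hi U hU
  have hsurj : Function.Surjective (Ber.res i : Ber K C → Ber K R) :=
    int_surj i hi.inj hi.isIntegral
  have hclosed : IsClosedMap (Ber.res i : Ber K C → Ber K R) := int_closed i hi.isIntegral
  -- the saturation of `U` is open
  have hsat : IsOpen (⋃ g : G, act ρ g ⁻¹' U) :=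
    isOpen_iUnion fun g => hU.preimage (act_continuous ρ g)
  have him : (Ber.res i '' U)ᶜ = Ber.res i '' (⋃ g : G, act ρ g ⁻¹' U)ᶜ := by
    ext y
    constructor
    · intro hy
      obtain ⟨z, rfl⟩ := hsurj y
      refine ⟨z, ?_, rfl⟩
      intro hz
      rw [Set.mem_iUnion] at hz
      obtain ⟨g, hg⟩ := hz
      exact hy ⟨act ρ g z, hg, hi.res_act g z⟩
    · rintro ⟨z, hz, rfl⟩ ⟨u, hu, huz⟩
      apply hz
      rw [Set.mem_iUnion]
      obtain ⟨g, hg⟩ := h2 K R C G i ρ hi z u huz.symm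
      refine ⟨g, ?_⟩
      show act ρ g z ∈ U
      rw [← hg]
      exact hu
  rw [← isClosed_compl_iff, him]
  exact hclosed _ hsat.isClosed_compl

end Pool.Agent.TD.Q
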