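import Pool.Agent.TD.Q.Stmts

/-!
# (Q3) of PAPER2.md (MP_90358a_ag): openness of integral maps to normal spaces
-/

open scoped Topology NNReal

namespace Pool.Agent.TD.Q.Q3

/-- Neighbourhoods of a point of `M(C)`. -/
theorem exists_basic {K C : Type} [NormedField K] [CommRing C] [Algebra K C] {V : Set (Ber K C)}
    {z : Ber K C} (hV : V ∈ 𝓝 z) :
    ∃ (s : Finset C) (ε : ℝ), 0 < ε ∧ ∀ z' : Ber K C, (∀ c ∈ s, |z'.v c - z.v c| < ε) → z' ∈ V := by
  classical
  rw [nhds_induced, Filter.mem_comap] at hV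
  obtain ⟨U, hU, hUV⟩ := hV
  rw [nhds_pi, Filter.mem_pi] at hU
  obtain ⟨I, hI, t, ht, htU⟩ := hU
  have h1 : ∀ c : C, ∃ δ : ℝ, 0 < δ ∧ Metric.ball (z.v c) δ ⊆ t c := by
    intro c
    obtain ⟨δ, hδ, h⟩ := Metric.mem_nhds_iff.1 (ht c)
    exact ⟨δ, hδ, h⟩
  choose δ hδ hδt using h1
  rcases hI.toFinset.eq_empty_or_nonempty with he | hne
  · refine ⟨∅, 1, one_pos, fun z' _ => hUV (htU fun c hc => ?_)⟩
    have : c ∈ hI.toFinset := hI.mem_toFinset.2 hc
    rw [he] at this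
    exact absurd this (by simp)
  · refine ⟨hI.toFinset, hI.toFinset.inf' hne δ, ?_, fun z' h => hUV (htU fun c hc => ?_)⟩
    · rw [Finset.lt_inf'_iff]
      exact fun c _ => hδ c
    · have hc' : c ∈ hI.toFinset := hI.mem_toFinset.2 hc
      apply hδt c
      rw [Metric.mem_ball, Real.dist_eq]
      exact (h c hc').trans_le (Finset.inf'_le _ hc')

theorem main (h3 : Q3a_Stmt) (K R C : Type) [NormedField K] [IsUltrametricDist K] [CommRing R]
    [CommRing C] [Algebra K R] [Algebra K C] [IsDomain R] [IsIntegrallyClosed R] [IsDomain C]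
    (φ : R →ₐ[K] C) (hφ : Function.Injective φ) (hint : φ.toRingHom.IsIntegral)
    (V : Set (Ber K C)) (z : Ber K C) (hV : V ∈ 𝓝 z) : Ber.res φ '' V ∈ 𝓝 (Ber.res φ z) := by
  classical
  obtain ⟨s, ε, hε, hs⟩ := exists_basic hV
  let _ : Algebra R C := φ.toRingHom.toAlgebra
  have hal : ∀ r : R, algebraMap R C r = φ r := fun r => rfl
  have : IsScalarTower K R C := IsScalarTower.of_algebraMap_eq fun k => by
    rw [hal, φ.commutes]
  let C1 : Subalgebra R C := Algebra.adjoin R (s : Set C)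
  have hsC : ∀ c ∈ s, c ∈ C1 := fun c hc => Algebra.subset_adjoin hc
  let φ1 : R →ₐ[K] C1 := IsScalarTower.toAlgHom K R C1
  let ψ : C1 →ₐ[K] C := C1.val.restrictScalars K
  have hψφ : ∀ r, ψ (φ1 r) = φ r := fun r => rfl
  have hψ : Function.Injective ψ := Subtype.val_injective
  have hφ1 : Function.Injective φ1 := by
    intro a b h
    apply hφ
    rw [← hψφ, ← hψφ, h]
  have hfin : φ1.toRingHom.Finite := by
    have h1 : (Algebra.adjoin R (s : Set C)).toSubmodule.FG :=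
      fg_adjoin_of_finite s.finite_toSet fun c _ => hint c
    have h2 : Module.Finite R C1 := Module.Finite.iff_fg.2 h1
    exact h2
  have hψi : ψ.toRingHom.IsIntegral := by
    intro c
    obtain ⟨p, hp, hpc⟩ := hint c
    refine ⟨p.map φ1.toRingHom, hp.map _, ?_⟩
    rw [Polynomial.eval₂_map]
    exact hpc
  have hopen := h3 K R C1 φ1 hφ1 hfin
  have hsurj := int_surj ψ hψ hψi
  -- the open set
  let T : Set C1 := ψ ⁻¹' (s : Set C)
  have hT : T.Finite := s.finite_toSet.preimage hψ.injOn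
  let V1 : Set (Ber K C1) := ⋂ c ∈ T, {w | |w.v c - z.v (ψ c)| < ε}
  have hV1 : IsOpen V1 := by
    refine hT.isOpen_biInter fun c _ => ?_
    exact isOpen_lt (((Ber.continuous_v c).sub continuous_const).abs) continuous_const
  have hz1 : Ber.res ψ z ∈ V1 := by
    refine Set.mem_iInter₂.2 fun c _ => ?_
    show |(Ber.res ψ z).v c - z.v (ψ c)| < ε
    rw [Ber.res_v, sub_self, abs_zero]
    exact hε
  have hmem : Ber.res φ1 '' V1 ∈ 𝓝 (Ber.res φ1 (Ber.res ψ z)) :=
    (hopen V1 hV1).mem_nhds ⟨_, hz1, rfl⟩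
  have hcomp : ∀ z' : Ber K C, Ber.res φ1 (Ber.res ψ z') = Ber.res φ z' := by
    intro z'
    apply Ber.ext_v
    intro r
    rw [Ber.res_v, Ber.res_v, Ber.res_v, hψφ]
  rw [hcomp] at hmem
  refine Filter.mem_of_superset hmem ?_
  rintro _ ⟨w, hw, rfl⟩
  obtain ⟨z', rfl⟩ := hsurj w
  refine ⟨z', hs z' fun c hc => ?_, (hcomp z').symm⟩
  exact Set.mem_iInter₂.1 hw ⟨c, hsC c hc⟩ hc

end Pool.Agent.TD.Q.Q3

namespace Pool.Agent.TD.Q

theorem Q3_thm (h3 : Q3a_Stmt) : Q3_Stmt := by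
  intro K R C _ _ _ _ _ _ _ _ _ φ hφ hint
  rw [isOpenMap_iff_nhds_le]
  intro z
  rw [Filter.le_def]
  intro S hS
  rw [Filter.mem_map] at hS
  exact Filter.mem_of_superset (Q3.main h3 K R C φ hφ hint _ z hS) (Set.image_preimage_subset _ _)

end Pool.Agent.TD.Q
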