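import Pool.Agent.TD.Q.Stmts

/-!
# (Q3) openness of finite maps to normal spaces
-/

open scoped Topology NNReal
open Polynomial

namespace Pool.Agent.TD.Q

theorem Q3a_thm (h1 : Q1_Stmt) (hF : QF_Stmt) (h3 : Q3b_Stmt) : Q3a_Stmt := by
  intro K R C _ _ _ _ _ _ _ _ _ φ hinj hfin V hV
  have hint : φ.toRingHom.IsIntegral := RingHom.Finite.to_isIntegral hfin
  rw [isOpen_iff_mem_nhds]
  rintro _ ⟨z, hz, rfl⟩
  by_contra hn
  set y : Ber K R := Ber.res φ z with hy
  have hfS : {z' : Ber K C | Ber.res φ z' = y ∧ z' ∉ V}.Finite :=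
    (hF K R C φ hfin y).subset fun z' h => h.1
  obtain ⟨b, r, hr, hb0, hb1⟩ := h1 K R C φ hint y {z} hfS.toFinset
    (fun z' hz' => by rw [Finset.mem_singleton.1 hz'])
    (fun z' hz' => ((Set.Finite.mem_toFinset hfS).1 hz').1)
    (by
      rw [Finset.disjoint_singleton_left]
      intro h
      exact ((Set.Finite.mem_toFinset hfS).1 h).2 hz) (1 / 2) (by norm_num)
  have hρ : 0 < y.v r := lt_of_le_of_ne (y.nonneg r) (Ne.symm hr)
  have hzr : z.v (φ r) = y.v r := rfl
  have hzb : z.v b = y.v r := by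
    rw [← hzr]
    apply z.sub_eq
    rw [z.sub_comm]
    have := hb0 z (Finset.mem_singleton_self z)
    rw [hzr]
    linarith
  obtain ⟨P, hPm, hP0, hP⟩ := h3 K R C φ hinj hint b
  set U : Set (Ber K C) := V ∪ {z' | z'.v b < 3 / 4 * z'.v (φ r)} with hU
  have hUo : IsOpen U := hV.union (isOpen_lt (Ber.continuous_v b)
    (continuous_const.mul (Ber.continuous_v (φ r))))
  have hcl : IsClosed (Ber.res φ '' Uᶜ) := int_closed φ hint _ hUo.isClosed_compl
  have hyN : y ∉ Ber.res φ '' Uᶜ := by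
    rintro ⟨z', hz', hzy⟩
    apply hz'
    by_cases hzV : z' ∈ V
    · exact Or.inl hzV
    · right
      have h4 := hb1 z' ((Set.Finite.mem_toFinset hfS).2 ⟨hzy, hzV⟩)
      have h5 : z'.v (φ r) = y.v r := congrArg (fun w : Ber K R => w.v r) hzy
      show z'.v b < 3 / 4 * z'.v (φ r)
      rw [h5]
      linarith
  have hN : (Ber.res φ '' Uᶜ)ᶜ ∈ 𝓝 y := hcl.isOpen_compl.mem_nhds hyN
  have hcy : y ∈ closure ((Ber.res φ '' Uᶜ)ᶜ \ (Ber.res φ '' V)) := by
    rw [mem_closure_iff_nhds]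
    intro t ht
    by_contra he
    rw [Set.not_nonempty_iff_eq_empty] at he
    apply hn
    refine Filter.mem_of_superset (Filter.inter_mem ht hN) ?_
    intro w hw
    by_contra hwV
    have : w ∈ t ∩ ((Ber.res φ '' Uᶜ)ᶜ \ (Ber.res φ '' V)) := ⟨hw.1, hw.2, hwV⟩
    rw [he] at this
    exact this
  have hk : ∀ k ≤ P.natDegree, y.v (P.coeff (P.natDegree - k)) ≤ (3 / 4 * y.v r) ^ k := by
    intro k hk
    have hc : IsClosed {w : Ber K R | w.v (P.coeff (P.natDegree - k)) ≤ (3 / 4 * w.v r) ^ k} :=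
      isClosed_le (Ber.continuous_v _) ((continuous_const.mul (Ber.continuous_v r)).pow k)
    refine closure_minimal ?_ hc hcy
    rintro w ⟨hw1, hw2⟩
    refine hP w (3 / 4 * w.v r) (mul_nonneg (by norm_num) (w.nonneg r)) ?_ k hk
    intro z' hz'
    have hzU : z' ∈ U := by
      by_contra hzU
      exact hw1 ⟨z', hzU, hz'⟩
    have hzV : z' ∉ V := fun hzV => hw2 ⟨z', hzV, hz'⟩
    rcases hzU with h | h
    · exact absurd h hzV
    · have h5 : z'.v (φ r) = w.v r := congrArg (fun w : Ber K R => w.v r) hz'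
      have h6 : z'.v b < 3 / 4 * z'.v (φ r) := h
      rw [h5] at h6
      exact h6.le
  rw [Polynomial.eval₂_eq_sum_range, Finset.sum_range_succ, hPm.coeff_natDegree, map_one,
    one_mul] at hP0
  have hbn : b ^ P.natDegree =
      -(∑ i ∈ Finset.range P.natDegree, φ.toRingHom (P.coeff i) * b ^ i) := by
    linear_combination hP0
  have hle : z.v (b ^ P.natDegree) ≤ 3 / 4 * y.v r ^ P.natDegree := by
    rw [hbn, z.neg]
    apply z.sum_le
    · positivity
    · intro i hi
      have hi' : i < P.natDegree := Finset.mem_range.1 hi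
      rw [z.mul, z.pow, hzb]
      have h7 : z.v (φ.toRingHom (P.coeff i)) = y.v (P.coeff i) := rfl
      rw [h7]
      have h8 := hk (P.natDegree - i) (Nat.sub_le _ _)
      rw [Nat.sub_sub_self hi'.le, mul_pow] at h8
      have h9 : ((3 : ℝ) / 4) ^ (P.natDegree - i) ≤ 3 / 4 := by
        calc ((3 : ℝ) / 4) ^ (P.natDegree - i) ≤ (3 / 4) ^ 1 :=
              pow_le_pow_of_le_one (by norm_num) (by norm_num) (by omega)
          _ = 3 / 4 := pow_one _
      have h10 : 0 < y.v r ^ (P.natDegree - i) := pow_pos hρ _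
      have h11 : 0 < y.v r ^ i := pow_pos hρ _
      calc y.v (P.coeff i) * y.v r ^ i ≤
            ((3 / 4) ^ (P.natDegree - i) * y.v r ^ (P.natDegree - i)) * y.v r ^ i :=
              mul_le_mul_of_nonneg_right h8 h11.le
        _ ≤ (3 / 4 * y.v r ^ (P.natDegree - i)) * y.v r ^ i :=
              mul_le_mul_of_nonneg_right (mul_le_mul_of_nonneg_right h9 h10.le) h11.le
        _ = 3 / 4 * y.v r ^ P.natDegree := by
              rw [mul_assoc, ← pow_add, Nat.sub_add_cancel hi'.le]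
  rw [z.pow, hzb] at hle
  have h12 : 0 < y.v r ^ P.natDegree := pow_pos hρ _
  linarith

end Pool.Agent.TD.Q
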