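import Pool.Agent.TD.Q.Stmts
import Pool.Agent.TD.T.Lift
import Pool.Agent.TD.T.Ext
import Pool.Agent.TD.T.Res

/-!
# (Q3b): the coefficients of the minimal polynomial (PAPER2.md, section Q, module TD_Q_Q3b)
-/

open scoped Topology NNReal
open Polynomial

namespace Pool.Agent.TD.Q

namespace Q3b

/-- Homomorphisms from `C` to an algebraically closed field with given values on `R` and at
`b`. -/
theorem exists_hom {R C Ω : Type} [CommRing R] [CommRing C] [Algebra R C] [IsDomain R]
    [IsIntegrallyClosed R] [IsDomain C] [Algebra.IsIntegral R C] [Module.IsTorsionFree R C]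
    [Field Ω] [IsAlgClosed Ω] (f : R →+* Ω) (b : C) (a : Ω)
    (ha : ((minpoly R b).map f).eval a = 0) :
    ∃ τ : C →+* Ω, (∀ r, τ (algebraMap R C r) = f r) ∧ τ b = a := by
  have hb : IsIntegral R b := Algebra.IsIntegral.isIntegral b
  have hA : Algebra.IsIntegral (Algebra.adjoin R ({b} : Set C)) C :=
    Algebra.IsIntegral.tower_top (R := R)
  have hinj : Function.Injective (algebraMap (Algebra.adjoin R ({b} : Set C)) C) :=
    Subtype.val_injective
  have ha' : (minpoly R b).eval₂ f a = 0 := by rwa [Polynomial.eval_map] at ha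
  let e := minpoly.equivAdjoin hb
  let g : Algebra.adjoin R ({b} : Set C) →+* Ω :=
    (AdjoinRoot.lift f a ha').comp (e.symm : Algebra.adjoin R ({b} : Set C) →+* _)
  obtain ⟨τ, hτ⟩ := T_LIFT.exists_extension (B := C) hinj g
  refine ⟨τ, fun r => ?_, ?_⟩
  · have h1 := hτ (algebraMap R (Algebra.adjoin R ({b} : Set C)) r)
    rw [← IsScalarTower.algebraMap_apply] at h1
    rw [h1]
    show AdjoinRoot.lift f a ha' (e.symm (algebraMap R _ r)) = f r
    rw [AlgEquiv.commutes, AdjoinRoot.algebraMap_eq, AdjoinRoot.lift_of]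
  · have h2 : e (AdjoinRoot.root (minpoly R b)) =
        ⟨b, Algebra.self_mem_adjoin_singleton R b⟩ := by
      apply Subtype.ext
      show ((AdjoinRoot.Minpoly.toAdjoin R b) (AdjoinRoot.root (minpoly R b)) : C) = b
      exact AdjoinRoot.Minpoly.coe_toAdjoin_mk_X
    have h1 := hτ (e (AdjoinRoot.root (minpoly R b)))
    rw [h2] at h1
    have h3 : τ b = g ⟨b, Algebra.self_mem_adjoin_singleton R b⟩ := h1
    rw [h3, ← h2]
    show AdjoinRoot.lift f a ha' (e.symm (e (AdjoinRoot.root (minpoly R b)))) = a
    rw [AlgEquiv.symm_apply_apply, AdjoinRoot.lift_root]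

end Q3b

/-- (Q3b) -/
theorem Q3b_thm (h3 : Q3c_Stmt) : Q3b_Stmt := by
  intro K R C _ _ _ _ _ _ _ _ _ φ hinj hint b
  let _ : Algebra R C := φ.toRingHom.toAlgebra
  have hinj' : Function.Injective (algebraMap R C) := hinj
  have : Algebra.IsIntegral R C := ⟨hint⟩
  have : FaithfulSMul R C := (faithfulSMul_iff_algebraMap_injective R C).2 hinj'
  have : Module.IsTorsionFree R C := inferInstance
  have hb : IsIntegral R b := Algebra.IsIntegral.isIntegral b
  refine ⟨minpoly R b, minpoly.monic hb, minpoly.aeval R b, ?_⟩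
  intro y t ht hz k hk
  obtain ⟨H, _, _, _, ι, hι⟩ := td_res K R y
  obtain ⟨N, -⟩ := td_ext H (AlgebraicClosure H)
  have hN : ∀ r, N.v (((algebraMap H (AlgebraicClosure H)).comp ι) r) = y.v r := by
    intro r
    rw [RingHom.comp_apply, N.ext, hι.norm]
  have hm := minpoly.monic hb
  have key := h3 H (AlgebraicClosure H) N
    ((minpoly R b).map ((algebraMap H (AlgebraicClosure H)).comp ι)) t (hm.map _) ht ?_ k
    (by rwa [hm.natDegree_map])
  · rw [hm.natDegree_map, Polynomial.coeff_map, hN] at key
    exact key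
  · intro a ha
    obtain ⟨τ, hτ1, hτ2⟩ := Q3b.exists_hom _ b a ha
    have hτ : ∀ r : R, N.v (τ (φ r)) = y.v r := by
      intro r
      have h1 : τ (φ r) = ((algebraMap H (AlgebraicClosure H)).comp ι) r := hτ1 r
      rw [h1, hN]
    let z : Ber K C :=
      { v := fun c => N.v (τ c)
        nonneg := fun c => N.nonneg _
        one := by rw [map_one, N.one]
        mul := fun a b => by rw [map_mul, N.mul]
        add := fun a b => by rw [map_add]; exact N.add _ _
        ext := fun c => by
          have h1 : algebraMap K C c = φ (algebraMap K R c) := (φ.commutes c).symm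
          rw [h1, hτ, y.ext] }
    have hz1 : Ber.res φ z = y := Ber.ext_v fun r => hτ r
    have h4 := hz z hz1
    have h5 : z.v b = N.v a := by
      show N.v (τ b) = N.v a
      rw [hτ2]
    rwa [h5] at h4

end Pool.Agent.TD.Q
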