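import Pool.Agent.TD.Q.Stmts

/-!
# (Q3c): the coefficients of a polynomial with small roots are small (MP_90358a_ag)
-/

open scoped Topology NNReal
open Polynomial

namespace Pool.Agent.TD.Q

namespace Q3c

theorem aux {H L : Type} [NormedField H] [Field L] [Algebra H L] (N : Ber H L) (t : ℝ)
    (ht : 0 ≤ t) (s : Multiset L) (hs : ∀ a ∈ s, N.v a ≤ t) :
    ∀ k ≤ Multiset.card s,
      N.v ((s.map fun a => X - C a).prod.coeff (Multiset.card s - k)) ≤ t ^ k := by
  induction s using Multiset.induction_on with
  | empty =>
    intro k hk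
    have hk0 : k = 0 := by simpa using hk
    subst hk0
    simp [N.one]
  | cons a s ih =>
    intro k hk
    have hs' : ∀ b ∈ s, N.v b ≤ t := fun b hb => hs b (Multiset.mem_cons_of_mem hb)
    have ha : N.v a ≤ t := hs a (Multiset.mem_cons_self a s)
    have ih' := ih hs'
    rw [Multiset.card_cons] at hk ⊢
    rw [Multiset.map_cons, Multiset.prod_cons]
    set Q : L[X] := (s.map fun a => X - C a).prod with hQ
    have hQm : Q.Monic := monic_multiset_prod_of_monic _ _ fun b _ => monic_X_sub_C b
    have hQd : Q.natDegree = Multiset.card s := natDegree_multiset_prod_X_sub_C_eq_card s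
    rcases k with _ | j
    · rw [Nat.sub_zero, pow_zero, sub_mul, coeff_sub, coeff_X_mul, coeff_C_mul,
        coeff_eq_zero_of_natDegree_lt (p := Q) (n := Multiset.card s + 1) (by omega), mul_zero,
        sub_zero]
      have h1 : Q.coeff (Multiset.card s) = 1 := by
        rw [← hQd]
        exact hQm.coeff_natDegree
      rw [h1, N.one]
    · have hj : j ≤ Multiset.card s := by omega
      have hm : Multiset.card s + 1 - (j + 1) = Multiset.card s - j := by omega
      rw [hm, sub_mul, coeff_sub, coeff_C_mul]
      refine (N.sub _ _).trans (max_le ?_ ?_)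
      · rcases Nat.eq_zero_or_pos (Multiset.card s - j) with h0 | h0
        · rw [h0, coeff_X_mul_zero, N.zero]
          positivity
        · obtain ⟨m, hm'⟩ : ∃ m, Multiset.card s - j = m + 1 :=
            ⟨Multiset.card s - j - 1, by omega⟩
          rw [hm', coeff_X_mul]
          have h2 := ih' (j + 1) (by omega)
          rwa [show Multiset.card s - (j + 1) = m by omega] at h2
      · rw [N.mul, pow_succ']
        exact mul_le_mul ha (ih' j hj) (N.nonneg _) ht

end Q3c

theorem Q3c_thm : Q3c_Stmt := by
  intro H L _ _ _ _ N P t hP ht hr k hk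
  have hs : P.Splits := IsAlgClosed.splits P
  have h1 := hs.eq_prod_roots_of_monic hP
  have h2 : Multiset.card P.roots = P.natDegree := (splits_iff_card_roots.1 hs)
  have h3 := Q3c.aux N t ht P.roots (fun a ha => hr a (by
    have := (mem_roots'.1 ha).2
    exact this)) k (by omega)
  rw [h2, ← h1] at h3
  exact h3

end Pool.Agent.TD.Q

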