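import Pool.Agent.TD.Q.Stmts
import Pool.Agent.TD.GP.Gx

/-!
# (Q4)(iii) of PAPER2.md: the spectrum of `A[X]` has no non-empty compact open subset
-/

open scoped Topology NNReal
open Polynomial

namespace Pool.Agent.TD.Q

theorem Q4_thm : Q4_Stmt := by
  intro K A _ _ _ _ Ω hc ho
  rw [Set.eq_empty_iff_forall_notMem]
  intro z hz
  have hcont : Continuous fun s : ℝ≥0 => tr (shX K A) z s :=
    (continuous_tr (shX K A)).comp (continuous_const.prodMk continuous_id)
  have h0 : (0 : ℝ≥0) ∈ (fun s : ℝ≥0 => tr (shX K A) z s) ⁻¹' Ω := by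
    rw [Set.mem_preimage, tr_zero (shX_coeff_zero A)]
    exact hz
  have hT : (fun s : ℝ≥0 => tr (shX K A) z s) ⁻¹' Ω = Set.univ :=
    IsClopen.eq_univ ⟨hc.isClosed.preimage hcont, ho.preimage hcont⟩ ⟨0, h0⟩
  obtain ⟨M, hM⟩ := (hc.image (Ber.continuous_v (K := K) (X : A[X]))).bddAbove
  have h1 : ∀ s : ℝ≥0, (s : ℝ) ≤ M := by
    intro s
    have h2 : tr (shX K A) z s ∈ Ω := by
      have h3 : s ∈ (fun s : ℝ≥0 => tr (shX K A) z s) ⁻¹' Ω := by
        rw [hT]
        exact Set.mem_univ s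
      exact h3
    have h3 := hM (Set.mem_image_of_mem (fun w : Ber K A[X] => w.v X) h2)
    rw [tr_X z s (shX_X A)] at h3
    exact (le_max_right _ _).trans h3
  obtain ⟨n, hn⟩ := exists_nat_gt M
  have h2 := h1 (n : ℝ≥0)
  rw [NNReal.coe_natCast] at h2
  exact absurd h2 (not_le.2 hn)

end Pool.Agent.TD.Q
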