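import Pool.Agent.TD.Q.Stmts

/-!
# (Q5) compact open subsets of the spectrum of an algebra of finite type (MP_90358a_ag)

The points of a compact open subset have kernels which are maximal and minimal primes: the
algebra is quasi-finite there.
-/

open scoped Topology NNReal

namespace Pool.Agent.TD.Q

namespace Q5

/-- Every prime ideal contained in the kernel of a point of a compact open set is maximal. -/
theorem isMaximal_of_le (h5 : Q5a_Stmt) (hS : QS_Stmt) (κ B : Type) [NormedField κ]
    [IsUltrametricDist κ] [CommRing B] [Algebra κ B] [Algebra.FiniteType κ B] (Ω : Set (Ber κ B))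
    (hc : IsCompact Ω) (ho : IsOpen Ω) (z : Ber κ B) (hz : z ∈ Ω) (P : Ideal B)
    (hP : P.IsPrime) (hle : P ≤ z.ker) : P.IsMaximal := by
  have h1 : IsDomain (B ⧸ P) := Ideal.Quotient.isDomain P
  let φ : B →ₐ[κ] B ⧸ P := Ideal.Quotient.mkₐ κ P
  have hφ : Function.Surjective φ := Ideal.Quotient.mkₐ_surjective κ P
  have h2 : Algebra.FiniteType κ (B ⧸ P) := Algebra.FiniteType.of_surjective φ hφ
  obtain ⟨he, hr⟩ := hS κ B (B ⧸ P) φ hφ
  have hzr : z ∈ Set.range (Ber.res φ : Ber κ (B ⧸ P) → Ber κ B) := by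
    rw [hr]
    intro a ha
    exact hle (Ideal.Quotient.eq_zero_iff_mem.1 ha)
  obtain ⟨w, hw⟩ := hzr
  have hF : IsField (B ⧸ P) := h5 κ (B ⧸ P) (Ber.res φ ⁻¹' Ω) (he.isCompact_preimage hc)
    (ho.preimage (Ber.res_continuous φ)) ⟨w, by
      show Ber.res φ w ∈ Ω
      rw [hw]
      exact hz⟩
  exact Ideal.Quotient.maximal_of_isField P hF

end Q5

/-- (Q5). -/
theorem Q5_thm (h5 : Q5a_Stmt) (hS : QS_Stmt) : Q5_Stmt := by
  intro κ B _ _ _ _ _ Ω hc ho z hz
  have key := Q5.isMaximal_of_le h5 hS κ B Ω hc ho z hz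
  have hmax : z.ker.IsMaximal := key z.ker inferInstance le_rfl
  let p : PrimeSpectrum B := ⟨z.ker, inferInstance⟩
  have h1 : IsNoetherianRing B := Algebra.FiniteType.isNoetherianRing κ B
  have h2 : IsJacobsonRing B := isJacobsonRing_of_finiteType (A := κ)
  have hopen : IsOpen {p} := by
    refine ((PrimeSpectrum.isOpen_singleton_tfae_of_isNoetherian_of_isJacobsonRing p).out 0 2
      rfl rfl).mpr ⟨(PrimeSpectrum.isClosed_singleton_iff_isMaximal p).2 hmax, ?_⟩
    intro x y hyx hx
    rw [Set.mem_singleton_iff] at hx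
    subst hx
    have hle : y.asIdeal ≤ z.ker := by
      have h := (PrimeSpectrum.le_iff_specializes y p).2 hyx
      exact h
    have hy : y.asIdeal.IsMaximal := key y.asIdeal y.2 hle
    rw [Set.mem_singleton_iff]
    apply PrimeSpectrum.ext
    exact hy.eq_of_le hmax.ne_top hle
  exact Algebra.QuasiFiniteAt.of_isOpen_singleton p hopen

end Pool.Agent.TD.Q
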