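import Pool.Agent.TD.Q.Stmts

/-!
# (Q5a) of PAPER2.md: compact open sets, domains (MP_90358a_ag)
-/

open scoped Topology NNReal
open Polynomial

namespace Pool.Agent.TD.Q

namespace Q5a

/-- The spectrum of a polynomial ring in at least one variable has no non-empty compact open
subset. -/
theorem no_compact_open (h4 : Q4_Stmt) {κ : Type} [NormedField κ] [IsUltrametricDist κ] (n : ℕ)
    (Ω : Set (Ber κ (MvPolynomial (Fin (n + 1)) κ))) (hc : IsCompact Ω) (ho : IsOpen Ω) :
    Ω = ∅ := by
  have e : MvPolynomial (Fin (n + 1)) κ ≃ₐ[κ] (MvPolynomial (Fin n) κ)[X] :=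
    MvPolynomial.finSuccEquiv κ n
  have hco : IsCompact (Ber.res e.symm.toAlgHom '' Ω) := hc.image (Ber.res_continuous _)
  have him : Ber.res e.symm.toAlgHom '' Ω = (Ber.res e.toAlgHom) ⁻¹' Ω := by
    ext z
    constructor
    · rintro ⟨w, hw, rfl⟩
      have h : Ber.res e.toAlgHom (Ber.res e.symm.toAlgHom w) = w := by
        apply Ber.ext_v
        intro a
        rw [Ber.res_v, Ber.res_v]
        exact congrArg w.v (e.symm_apply_apply a)
      rw [Set.mem_preimage, h]
      exact hw
    · intro hz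
      refine ⟨_, hz, ?_⟩
      apply Ber.ext_v
      intro a
      rw [Ber.res_v, Ber.res_v]
      exact congrArg z.v (e.apply_symm_apply a)
  have hop : IsOpen (Ber.res e.symm.toAlgHom '' Ω) := by
    rw [him]
    exact ho.preimage (Ber.res_continuous _)
  have := h4 κ (MvPolynomial (Fin n) κ) _ hco hop
  exact Set.image_eq_empty.1 this

end Q5a

theorem Q5a_thm (h3 : Q3_Stmt) (h4 : Q4_Stmt) : Q5a_Stmt := by
  intro κ B _ _ _ _ _ _ Ω hc ho hne
  obtain ⟨s, g, hinj, hfin⟩ := exists_finite_inj_algHom_of_fg κ B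
  have hopen := h3 κ (MvPolynomial (Fin s) κ) B g hinj hfin.to_isIntegral
  have hc' : IsCompact (Ber.res g '' Ω) := hc.image (Ber.res_continuous _)
  have ho' : IsOpen (Ber.res g '' Ω) := hopen _ ho
  rcases s with _ | n
  · letI := g.toRingHom.toAlgebra
    haveI : Module.Finite (MvPolynomial (Fin 0) κ) B := hfin
    have hF : IsField (MvPolynomial (Fin 0) κ) :=
      MulEquiv.isField (Field.toIsField κ) (MvPolynomial.isEmptyAlgEquiv κ (Fin 0)).toMulEquiv
    exact isField_of_isIntegral_of_isField' hF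
  · exact absurd (Q5a.no_compact_open h4 n _ hc' ho') (hne.image _).ne_empty

end Pool.Agent.TD.Q

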