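import Pool.Agent.TD.Q.Stmts
import Pool.Agent.TD.T.Res

/-!
# (Q6): compact open subsets of fibres (MP_90358a_ag)
-/

open scoped Topology NNReal TensorProduct

namespace Pool.Agent.TD.Q

namespace Q6

open T_RES

section
variable {K R : Type} [NormedField K] [CommRing R] [Algebra K R]

/-- The valuation of the residue field of the kernel of a point. -/
theorem exists_val (y : Ber K R) : ∃ v : Valuation y.ker.ResidueField ℝ≥0,
    ∀ r : R, ((v (algebraMap R y.ker.ResidueField r) : ℝ≥0) : ℝ) = y.v r := by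
  let p : Ideal R := y.ker
  have hle : p ≤ (val y).supp := by
    intro a ha
    rw [Valuation.mem_supp_iff]
    exact Subtype.ext ha
  have hge : (val y).supp ≤ p := by
    intro a ha
    rw [Valuation.mem_supp_iff] at ha
    show y.v a = 0
    rw [← val_apply, ha, NNReal.coe_zero]
  let vR : Valuation (R ⧸ p) ℝ≥0 := (val y).onQuot hle
  have hvR : ∀ a : R, (vR (Ideal.Quotient.mk p a) : ℝ) = y.v a := fun a => rfl
  have hS : nonZeroDivisors (R ⧸ p) ≤ vR.supp.primeCompl := by
    intro s hs
    rw [Ideal.mem_primeCompl_iff, Valuation.mem_supp_iff]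
    intro h0
    obtain ⟨a, rfl⟩ := Ideal.Quotient.mk_surjective s
    have h1 : y.v a = 0 := by rw [← hvR a, h0, NNReal.coe_zero]
    exact nonZeroDivisors.ne_zero hs (Ideal.Quotient.eq_zero_iff_mem.2 h1)
  let vL : Valuation p.ResidueField ℝ≥0 := vR.extendToLocalization hS p.ResidueField
  refine ⟨vL, fun r => ?_⟩
  have h1 : algebraMap R p.ResidueField r =
      algebraMap (R ⧸ p) p.ResidueField (Ideal.Quotient.mk p r) := rfl
  rw [h1, vR.extendToLocalization_apply_map_apply hS p.ResidueField]
  exact hvR r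

theorem exists_frac (y : Ber K R) (x : y.ker.ResidueField) : ∃ a b : R,
    algebraMap R y.ker.ResidueField b ≠ 0 ∧
      x * algebraMap R y.ker.ResidueField b = algebraMap R y.ker.ResidueField a := by
  obtain ⟨a', b', hb', hab⟩ := IsFractionRing.div_surjective (A := R ⧸ y.ker) x
  obtain ⟨a, rfl⟩ := Ideal.Quotient.mk_surjective a'
  obtain ⟨b, rfl⟩ := Ideal.Quotient.mk_surjective b'
  have hb : algebraMap R y.ker.ResidueField b ≠ 0 := by
    have h1 : algebraMap R y.ker.ResidueField b =
      algebraMap (R ⧸ y.ker) y.ker.ResidueField (Ideal.Quotient.mk y.ker b) := rfl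
    rw [h1]
    exact IsFractionRing.to_map_ne_zero_of_mem_nonZeroDivisors hb'
  refine ⟨a, b, hb, ?_⟩
  rw [← hab]
  exact div_mul_cancel₀ _ hb

end

end Q6

open Q6 T_RES in
theorem Q6_thm (h5 : Q5_Stmt) (h6 : Q6a_Stmt) : Q6_Stmt := by
  intro K R A _ _ _ _ _ _ φ hφ y U hU hc z hz hzy
  let _ : Algebra R A := φ.toRingHom.toAlgebra
  have : Algebra.FiniteType R A := hφ
  obtain ⟨vL, hvL⟩ := exists_val y
  have hfr := exists_frac y
  let nf : NormedField y.ker.ResidueField := (absOf vL).toNormedField
  have hnorm : ∀ x : y.ker.ResidueField, ‖x‖ = ((vL x : ℝ≥0) : ℝ) := fun x => rfl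
  have : IsUltrametricDist y.ker.ResidueField := by
    apply IsUltrametricDist.isUltrametricDist_of_forall_norm_add_le_max_norm
    intro a b
    exact absOf_add vL a b
  let ι : R →+* y.ker.ResidueField := algebraMap R y.ker.ResidueField
  let j : A →+* y.ker.Fiber A :=
    (Algebra.TensorProduct.includeRight : A →ₐ[R] y.ker.ResidueField ⊗[R] A).toRingHom
  have hj0 : ∀ r, j (φ r) = algebraMap y.ker.ResidueField (y.ker.Fiber A) (ι r) := by
    intro r
    exact (Algebra.TensorProduct.includeRight : A →ₐ[R] y.ker.ResidueField ⊗[R] A).commutes r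
  have hspan : Submodule.span y.ker.ResidueField (Set.range j) = ⊤ := by
    rw [eq_top_iff]
    rintro x -
    induction x using TensorProduct.induction_on with
    | zero => exact Submodule.zero_mem _
    | tmul s a =>
      have h1 : s ⊗ₜ[R] a = s • (j a : y.ker.Fiber A) := by
        show s ⊗ₜ[R] a = s • ((1 : y.ker.ResidueField) ⊗ₜ[R] a)
        rw [TensorProduct.smul_tmul', smul_eq_mul, mul_one]
      rw [h1]
      exact Submodule.smul_mem _ _ (Submodule.subset_span ⟨a, rfl⟩)
    | add a b ha hb => exact Submodule.add_mem _ ha hb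
  have hup : ∀ (E : Type) [Field E] (e : y.ker.ResidueField →+* E) (f : A →+* E),
      (∀ r, e (ι r) = f (φ r)) → ∃ F : y.ker.Fiber A →+* E,
      (∀ x, F (algebraMap y.ker.ResidueField (y.ker.Fiber A) x) = e x) ∧ ∀ a, F (j a) = f a := by
    intro E _ e f hef
    let _ : Algebra R E := (e.comp ι).toAlgebra
    let e' : y.ker.ResidueField →ₐ[R] E := { e with commutes' := fun r => rfl }
    let f' : A →ₐ[R] E := { f with commutes' := fun r => (hef r).symm }
    let F := Algebra.TensorProduct.productMap e' f'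
    refine ⟨F.toRingHom, fun x => ?_, fun a => ?_⟩
    · exact Algebra.TensorProduct.productMap_left_apply e' f' x
    · exact Algebra.TensorProduct.productMap_right_apply e' f' a
  obtain ⟨hj, hemb, hrange⟩ := h6 K R A y.ker.ResidueField (y.ker.Fiber A) φ y ι j hvL hfr hj0
    hspan hup
  have hcont : Continuous (Ber.comap j hj : Ber y.ker.ResidueField (y.ker.Fiber A) → Ber K A) :=
    Ber.comap_continuous j hj
  have hzr : z ∈ Set.range (Ber.comap j hj :
      Ber y.ker.ResidueField (y.ker.Fiber A) → Ber K A) := by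
    rw [hrange]
    exact hzy
  obtain ⟨w, hw⟩ := hzr
  have hΩ : IsCompact ((Ber.comap j hj :
      Ber y.ker.ResidueField (y.ker.Fiber A) → Ber K A) ⁻¹' U) := by
    have h1 := hemb.isCompact_preimage hc
    rwa [← hrange, Set.preimage_inter_range] at h1
  have hqf := h5 y.ker.ResidueField (y.ker.Fiber A) _ hΩ (hU.preimage hcont) w
    (show Ber.comap j hj w ∈ U by rw [hw]; exact hz)
  have hover : z.ker.LiesOver y.ker := by
    constructor
    ext r
    show y.v r = 0 ↔ z.v (φ r) = 0
    have h1 : y.v r = z.v (φ r) := by rw [← hzy, Ber.res_v]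
    rw [h1]
  have hQ : w.ker.comap (Algebra.TensorProduct.includeRight :
      A →ₐ[R] y.ker.ResidueField ⊗[R] A).toRingHom = z.ker := by
    ext a
    show w.v (j a) = 0 ↔ z.v a = 0
    rw [← hw, Ber.comap_v]
  have hq2 : Algebra.QuasiFiniteAt R z.ker :=
    Algebra.QuasiFiniteAt.of_quasiFiniteAt_residueField y.ker z.ker w.ker hQ
  obtain ⟨g, hg, hgi, hgx⟩ := Algebra.zariskisMainProperty_iff.1
    (Algebra.ZariskisMainProperty.of_finiteType (R := R) z.ker)
  exact ⟨g, hg, hgi, hgx⟩

end Pool.Agent.TD.Q
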