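import Pool.Agent.TD.Q.Stmts

/-!
# (Q7): quasi-finite maps to normal spaces are open (MP_90358a_ag)
-/

open scoped Topology NNReal
open Polynomial

namespace Pool.Agent.TD.Q

/-- (Q7) quasi-finite maps to normal spaces are open, from the finite case (Q3) and (Q7a). -/
theorem Q7_thm (h3 : Q3_Stmt) (h7 : Q7a_Stmt) : Q7_Stmt := by
  intro K R A _ _ _ _ _ _ _ _ _ φ hφ z hz V hV
  letI : Algebra R A := φ.toRingHom.toAlgebra
  haveI : IsScalarTower K R A := IsScalarTower.of_algebraMap_eq fun c => (φ.commutes c).symm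
  let ψ : integralClosure R A →ₐ[K] A :=
    { (integralClosure R A).val.toRingHom with
      commutes' := fun c => rfl }
  let φ' : R →ₐ[K] integralClosure R A :=
    { algebraMap R (integralClosure R A) with
      commutes' := fun c => Subtype.ext (φ.commutes c) }
  have hψv : ∀ x, ψ x = x.1 := fun _ => rfl
  have hφv : ∀ r, (φ' r).1 = φ r := fun _ => rfl
  obtain ⟨g, hg0, hgi, hgx⟩ := hz
  have hψ : Function.Injective ψ := Subtype.val_injective
  have hφ' : Function.Injective φ' := fun a b h => hφ (by rw [← hφv, ← hφv, h])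
  have hint : φ'.toRingHom.IsIntegral := by
    intro x
    have h1 : IsIntegral R x := Algebra.IsIntegral.isIntegral x
    exact h1
  have h1 := (h7 K (integralClosure R A) A ψ ⟨g, hgi⟩ hψ (fun x => by
    obtain ⟨m, hm⟩ := hgx x
    exact ⟨m, ⟨g ^ m * x, hm⟩, rfl⟩)).2.2 z hg0 V hV
  have h2 := (h3 K R (integralClosure R A) φ' hφ' hint).image_mem_nhds h1
  have h3 : ∀ w, Ber.res φ' (Ber.res ψ w) = Ber.res φ w := fun w => Ber.ext_v fun r => rfl
  rw [Set.image_image] at h2
  simp only [h3] at h2
  exact h2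

end Pool.Agent.TD.Q
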