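import Pool.Agent.TD.Q.Stmts

/-!
# Section Q of PAPER2.md (MP_90358a_ag): (Q7a)
-/

set_option autoImplicit false

open scoped Topology NNReal

namespace Pool.Agent.TD.Q

namespace Q7a

variable {K C A : Type} [NormedField K] [CommRing C] [CommRing A] [Algebra K C] [Algebra K A]

theorem val_eq {ψ : C →ₐ[K] A} {g : C} (hψ : Function.Injective ψ) {w : Ber K C}
    (hw : w.v g ≠ 0) {x : A} {m m' : ℕ} {c c' : C} (h : ψ g ^ m * x = ψ c)
    (h' : ψ g ^ m' * x = ψ c') : w.v c / w.v g ^ m = w.v c' / w.v g ^ m' := by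
  have h1 : g ^ m' * c = g ^ m * c' := by
    apply hψ
    rw [map_mul, map_mul, map_pow, map_pow, ← h, ← h']
    ring
  have h2 := congrArg w.v h1
  rw [w.mul, w.mul, w.pow, w.pow] at h2
  rw [div_eq_div_iff (pow_ne_zero _ hw) (pow_ne_zero _ hw)]
  linarith

/-- The point over `w`. -/
noncomputable def pt (ψ : C →ₐ[K] A) (g : C) (hψ : Function.Injective ψ)
    (h : ∀ x : A, ∃ (m : ℕ) (c : C), ψ g ^ m * x = ψ c) (w : Ber K C) (hw : w.v g ≠ 0) :
    Ber K A where
  v x := w.v (h x).choose_spec.choose / w.v g ^ (h x).choose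
  nonneg x := div_nonneg (w.nonneg _) (pow_nonneg (w.nonneg _) _)
  one := by
    have h1 : ψ g ^ 0 * 1 = ψ 1 := by rw [pow_zero, one_mul, map_one]
    rw [val_eq hψ hw (h 1).choose_spec.choose_spec h1, w.one, pow_zero, div_one]
  mul x y := by
    have h1 : ψ g ^ ((h x).choose + (h y).choose) * (x * y) =
        ψ ((h x).choose_spec.choose * (h y).choose_spec.choose) := by
      rw [map_mul, ← (h x).choose_spec.choose_spec, ← (h y).choose_spec.choose_spec]
      ring
    rw [val_eq hψ hw (h (x * y)).choose_spec.choose_spec h1, w.mul, pow_add, mul_div_mul_comm]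
  add x y := by
    have hx : ψ g ^ ((h x).choose + (h y).choose) * x =
        ψ (g ^ (h y).choose * (h x).choose_spec.choose) := by
      rw [map_mul, map_pow, ← (h x).choose_spec.choose_spec]
      ring
    have hy : ψ g ^ ((h x).choose + (h y).choose) * y =
        ψ (g ^ (h x).choose * (h y).choose_spec.choose) := by
      rw [map_mul, map_pow, ← (h y).choose_spec.choose_spec]
      ring
    have hxy : ψ g ^ ((h x).choose + (h y).choose) * (x + y) =
        ψ (g ^ (h y).choose * (h x).choose_spec.choose +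
          g ^ (h x).choose * (h y).choose_spec.choose) := by
      rw [map_add, ← hx, ← hy, mul_add]
    rw [val_eq hψ hw (h (x + y)).choose_spec.choose_spec hxy,
      val_eq hψ hw (h x).choose_spec.choose_spec hx,
      val_eq hψ hw (h y).choose_spec.choose_spec hy,
      max_div_div_right (pow_nonneg (w.nonneg _) _)]
    exact div_le_div_of_nonneg_right (w.add _ _) (pow_nonneg (w.nonneg _) _)
  ext c := by
    have h1 : ψ g ^ 0 * algebraMap K A c = ψ (algebraMap K C c) := by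
      rw [pow_zero, one_mul, ψ.commutes]
    rw [val_eq hψ hw (h _).choose_spec.choose_spec h1, w.ext, pow_zero, div_one]

theorem pt_v {ψ : C →ₐ[K] A} {g : C} (hψ : Function.Injective ψ)
    (h : ∀ x : A, ∃ (m : ℕ) (c : C), ψ g ^ m * x = ψ c) {w : Ber K C} (hw : w.v g ≠ 0) {x : A}
    {m : ℕ} {c : C} (hx : ψ g ^ m * x = ψ c) : (pt ψ g hψ h w hw).v x = w.v c / w.v g ^ m :=
  val_eq hψ hw (h x).choose_spec.choose_spec hx

theorem res_pt {ψ : C →ₐ[K] A} {g : C} (hψ : Function.Injective ψ)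
    (h : ∀ x : A, ∃ (m : ℕ) (c : C), ψ g ^ m * x = ψ c) {w : Ber K C} (hw : w.v g ≠ 0) :
    Ber.res ψ (pt ψ g hψ h w hw) = w := by
  apply Ber.ext_v
  intro c
  have h1 : ψ g ^ 0 * ψ c = ψ c := by rw [pow_zero, one_mul]
  rw [Ber.res_v, pt_v hψ h hw h1, pow_zero, div_one]

theorem uniq {ψ : C →ₐ[K] A} {g : C} (h : ∀ x : A, ∃ (m : ℕ) (c : C), ψ g ^ m * x = ψ c)
    (z z' : Ber K A) (hz : z.v (ψ g) ≠ 0) (hzz : Ber.res ψ z = Ber.res ψ z') : z = z' := by
  have h1 : ∀ c, z.v (ψ c) = z'.v (ψ c) := by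
    intro c
    rw [← Ber.res_v, ← Ber.res_v, hzz]
  apply Ber.ext_v
  intro x
  obtain ⟨m, c, hx⟩ := h x
  have h2 : z.v (ψ g) ^ m * z.v x = z.v (ψ c) := by rw [← hx, z.mul, z.pow]
  have h3 : z'.v (ψ g) ^ m * z'.v x = z'.v (ψ c) := by rw [← hx, z'.mul, z'.pow]
  rw [← h1, ← h1, ← h2] at h3
  exact (mul_left_cancel₀ (pow_ne_zero m hz) h3).symm

end Q7a

open Q7a in
/-- (Q7a) -/
theorem Q7a_thm : Q7a_Stmt := by
  intro K C A _ _ _ _ _ ψ g hψ h
  classical
  refine ⟨fun w hw => ⟨pt ψ g hψ h w hw, res_pt hψ h hw⟩, fun z z' hz hzz => uniq h z z' hz hzz,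
    fun z hz V hV => ?_⟩
  have hz' : (Ber.res ψ z).v g ≠ 0 := hz
  let S : Ber K C → Ber K A := fun w => if hw : w.v g ≠ 0 then pt ψ g hψ h w hw else z
  have hS : ∀ w (hw : w.v g ≠ 0), S w = pt ψ g hψ h w hw := fun w hw => dif_pos hw
  have hSz : S (Ber.res ψ z) = z := by
    rw [hS _ hz']
    exact (uniq h z _ hz (res_pt hψ h hz').symm).symm
  have hopen : {w : Ber K C | w.v g ≠ 0} ∈ 𝓝 (Ber.res ψ z) :=
    (isOpen_ne_fun (Ber.continuous_v g) continuous_const).mem_nhds hz'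
  have hcont : Filter.Tendsto S (𝓝 (Ber.res ψ z)) (𝓝 z) := by
    rw [Ber.isEmbedding_v.isInducing.tendsto_nhds_iff, tendsto_pi_nhds]
    intro x
    obtain ⟨m, c, hx⟩ := h x
    have h1 : z.v x = (Ber.res ψ z).v c / (Ber.res ψ z).v g ^ m := by
      rw [← pt_v hψ h hz' hx, ← hS _ hz', hSz]
    have h2 : Filter.Tendsto (fun w : Ber K C => w.v c / w.v g ^ m) (𝓝 (Ber.res ψ z))
        (𝓝 ((Ber.res ψ z).v c / (Ber.res ψ z).v g ^ m)) :=
      ((Ber.continuous_v c).tendsto _).div (((Ber.continuous_v g).pow m).tendsto _)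
        (pow_ne_zero _ hz')
    rw [h1]
    refine h2.congr' ?_
    filter_upwards [hopen] with w hw
    rw [Function.comp_apply, hS w hw, pt_v hψ h hw hx]
  filter_upwards [hopen, hcont hV] with w hw hwV
  refine ⟨S w, hwV, ?_⟩
  rw [hS w hw]
  exact res_pt hψ h hw

end Pool.Agent.TD.Q
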