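import Pool.Agent.TD.Q.Stmts

/-!
# (Q8) the trace argument (MP_90358a_ag)
-/

open scoped Topology NNReal

namespace Pool.Agent.TD.Q.Q8

section
variable {K R C G : Type} [NormedField K] [CommRing R] [CommRing C] [Algebra K R] [Algebra K C]
  [Group G]

/-- The decomposition group of `z`. -/
def dec (ρ : G →* (C ≃ₐ[K] C)) (z : Ber K C) : Subgroup G where
  carrier := {g | act ρ g z = z}
  one_mem' := act_one ρ z
  mul_mem' := by
    intro a b ha hb
    show act ρ (a * b) z = z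
    rw [act_mul, show act ρ a z = z from ha, show act ρ b z = z from hb]
  inv_mem' := by
    intro a ha
    show act ρ a⁻¹ z = z
    have h := act_inv_act ρ a z
    rwa [show act ρ a z = z from ha] at h

theorem mem_dec (ρ : G →* (C ≃ₐ[K] C)) (z : Ber K C) (g : G) :
    g ∈ dec ρ z ↔ act ρ g z = z := Iff.rfl

/-- The restriction of the action to a subgroup. -/
abbrev rst (ρ : G →* (C ≃ₐ[K] C)) (D : Subgroup G) : D →* (C ≃ₐ[K] C) := ρ.comp D.subtype

/-- `R → C^D`. -/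
def toInva (i : R →ₐ[K] C) (ρ : G →* (C ≃ₐ[K] C)) (h : IsInv i ρ) (D : Subgroup G) :
    R →ₐ[K] inva (rst ρ D) :=
  i.codRestrict (inva (rst ρ D)) fun r d => h.fix d r

theorem toInva_coe (i : R →ₐ[K] C) (ρ : G →* (C ≃ₐ[K] C)) (h : IsInv i ρ) (D : Subgroup G)
    (r : R) : ((toInva i ρ h D r : inva (rst ρ D)) : C) = i r := rfl

theorem toInva_int [Finite G] (i : R →ₐ[K] C) (ρ : G →* (C ≃ₐ[K] C)) (h : IsInv i ρ)
    (D : Subgroup G) : (toInva i ρ h D).toRingHom.IsIntegral := by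
  intro x
  obtain ⟨p, hp, hx⟩ := h.isIntegral (x : C)
  refine ⟨p, hp, ?_⟩
  apply Subtype.val_injective
  have h1 := Polynomial.hom_eval₂ p (toInva i ρ h D).toRingHom (inva (rst ρ D)).val.toRingHom x
  exact h1.trans hx

/-- The conjugates of an element of `C^D`. -/
def cnj (ρ : G →* (C ≃ₐ[K] C)) (D : Subgroup G) (x : C) (hx : ∀ d ∈ D, ρ d x = x) :
    G ⧸ D → C :=
  Quotient.lift (fun g => ρ g x) (by
    intro g g' hg
    have h1 : g⁻¹ * g' ∈ D := QuotientGroup.leftRel_apply.1 hg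
    have h2 : ρ (g * (g⁻¹ * g')) x = ρ g x := by
      rw [map_mul]
      show ρ g (ρ (g⁻¹ * g') x) = ρ g x
      rw [hx _ h1]
    rw [mul_inv_cancel_left] at h2
    exact h2.symm)

theorem cnj_mk (ρ : G →* (C ≃ₐ[K] C)) (D : Subgroup G) (x : C) (hx : ∀ d ∈ D, ρ d x = x)
    (g : G) : cnj ρ D x hx (g : G ⧸ D) = ρ g x := rfl

theorem cnj_smul (ρ : G →* (C ≃ₐ[K] C)) (D : Subgroup G) (x : C) (hx : ∀ d ∈ D, ρ d x = x)
    (g : G) (q : G ⧸ D) : ρ g (cnj ρ D x hx q) = cnj ρ D x hx (g • q) := by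
  induction q using QuotientGroup.induction_on with
  | H g' =>
    rw [MulAction.Quotient.smul_coe, cnj_mk, cnj_mk, smul_eq_mul, map_mul]
    rfl

theorem main (h1 : Q1_Stmt) (h2 : Q2_Stmt) [Finite G] (i : R →ₐ[K] C) (ρ : G →* (C ≃ₐ[K] C))
    (h : IsInv i ρ) (z : Ber K C) (a : C) (ha : ∀ g, act ρ g z = z → ρ g a = a) (ε : ℝ)
    (hε : 0 < ε) : ∃ b r : R, z.v (i r) ≠ 0 ∧ z.v (i r * a - i b) < ε * z.v (i r) := by
  classical
  have := Fintype.ofFinite G
  set D := dec ρ z with hD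
  have := Fintype.ofFinite (G ⧸ D)
  let ρ' := rst ρ D
  have hI := isInv_inva ρ'
  -- the points `act s z`, `s ∉ D`, restricted to `C^D`
  let rs : Ber K C → Ber K (inva ρ') := Ber.res (inva ρ').val
  have hne : ∀ s, s ∉ D → rs (act ρ s z) ≠ rs z := by
    intro s hs heq
    obtain ⟨d, hd⟩ := h2 K (inva ρ') C D (inva ρ').val ρ' hI z (act ρ s z) heq.symm
    apply hs
    rw [hD, mem_dec, hd]
    exact d.2
  let S₁ : Finset (Ber K (inva ρ')) :=
    (Finset.univ.filter fun s : G => s ∉ D).image fun s => rs (act ρ s z)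
  let φ' := toInva i ρ h D
  have hy0 : Ber.res φ' (rs z) = Ber.res i z := rfl
  have hS₁ : ∀ w ∈ S₁, Ber.res φ' w = Ber.res i z := by
    intro w hw
    obtain ⟨s, -, rfl⟩ := Finset.mem_image.1 hw
    exact h.res_act s z
  set M : ℝ := ∑ g : G, z.v (ρ g a) + 1 with hM
  have hMg : ∀ g : G, z.v (ρ g a) ≤ M := by
    intro g
    have h3 : z.v (ρ g a) ≤ ∑ g : G, z.v (ρ g a) :=
      Finset.single_le_sum (f := fun g : G => z.v (ρ g a)) (fun g _ => z.nonneg _)
        (Finset.mem_univ g)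
    linarith
  have hMa : z.v a ≤ M := by
    have := hMg 1
    rwa [map_one] at this
  have hMpos : 0 < M := by
    have h3 : 0 ≤ ∑ g : G, z.v (ρ g a) := Finset.sum_nonneg fun g _ => z.nonneg _
    linarith
  have hε' : 0 < ε / (2 * M) := by positivity
  obtain ⟨e, r, hr, he0, he1⟩ := h1 K R (inva ρ') φ' (toInva_int i ρ h D) (Ber.res i z) {rs z}
    S₁ (by
      intro w hw
      rw [Finset.mem_singleton] at hw
      rw [hw, hy0]) hS₁ (by
      rw [Finset.disjoint_singleton_left]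
      intro hmem
      obtain ⟨s, hs, hs'⟩ := Finset.mem_image.1 hmem
      exact hne s (Finset.mem_filter.1 hs).2 hs') (ε / (2 * M)) hε'
  have hr' : (Ber.res i z).v r = z.v (i r) := rfl
  rw [hr'] at hr
  have hrpos : 0 < z.v (i r) := lt_of_le_of_ne (z.nonneg _) (Ne.symm hr)
  have hMe : M * (ε / (2 * M) * z.v (i r)) = ε / 2 * z.v (i r) := by
    field_simp
  have hq0 : z.v ((e : C) - i r) ≤ ε / (2 * M) * z.v (i r) := he0 _ (Finset.mem_singleton_self _)
  have hq1 : ∀ s, s ∉ D → z.v (ρ s (e : C)) ≤ ε / (2 * M) * z.v (i r) := by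
    intro s hs
    exact he1 (rs (act ρ s z))
      (Finset.mem_image_of_mem _ (Finset.mem_filter.2 ⟨Finset.mem_univ s, hs⟩))
  have hx : ∀ d ∈ D, ρ d (a * (e : C)) = a * (e : C) := by
    intro d hd
    rw [map_mul, ha d hd]
    congr 1
    exact e.2 ⟨d, hd⟩
  let f := cnj ρ D (a * (e : C)) hx
  have hinv : ∀ g : G, ρ g (∑ q : G ⧸ D, f q) = ∑ q : G ⧸ D, f q := by
    intro g
    rw [map_sum]
    refine Fintype.sum_equiv (MulAction.toPerm g) _ _ fun q => ?_
    rw [MulAction.toPerm_apply]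
    exact cnj_smul ρ D _ hx g q
  obtain ⟨b, hb⟩ := h.inv _ hinv
  refine ⟨b, r, hr, ?_⟩
  have hsplit : i r * a - i b = a * (i r - (e : C)) -
      ∑ q ∈ Finset.univ.erase ((1 : G) : G ⧸ D), f q := by
    rw [hb, ← Finset.add_sum_erase Finset.univ f (Finset.mem_univ ((1 : G) : G ⧸ D))]
    have : f ((1 : G) : G ⧸ D) = a * (e : C) := by
      show ρ 1 (a * (e : C)) = _
      rw [map_one]
      rfl
    rw [this]
    ring
  have hb0 : 0 ≤ ε / 2 * z.v (i r) := by positivity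
  have hle : z.v (i r * a - i b) ≤ ε / 2 * z.v (i r) := by
    rw [hsplit]
    refine (z.sub _ _).trans (max_le ?_ (z.sum_le _ _ hb0 fun q hq => ?_))
    · rw [z.mul, z.sub_comm, ← hMe]
      exact mul_le_mul hMa hq0 (z.nonneg _) hMpos.le
    · induction q using QuotientGroup.induction_on with
      | H s =>
        have hs : s ∉ D := by
          intro hs
          apply (Finset.mem_erase.1 hq).1
          rw [QuotientGroup.eq, mul_one]
          exact D.inv_mem hs
        show z.v (ρ s (a * (e : C))) ≤ _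
        rw [map_mul, z.mul, ← hMe]
        exact mul_le_mul (hMg s) (hq1 s hs) (z.nonneg _) hMpos.le
  have : ε / 2 * z.v (i r) < ε * z.v (i r) := by
    apply mul_lt_mul_of_pos_right _ hrpos
    linarith
  linarith

end

end Pool.Agent.TD.Q.Q8

theorem Pool.Agent.TD.Q.Q8_thm (h1 : Pool.Agent.TD.Q.Q1_Stmt) (h2 : Pool.Agent.TD.Q.Q2_Stmt) :
    Pool.Agent.TD.Q.Q8_Stmt :=
  fun _ _ _ _ _ _ _ _ _ _ _ i ρ h z a ha ε hε => Pool.Agent.TD.Q.Q8.main h1 h2 i ρ h z a ha ε hε
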