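import Pool.Agent.TD.Q.Stmts

/-!
# (Q9) maps of degree one (MP_90358a_ag)
-/

open scoped Topology NNReal

theorem Pool.Agent.TD.Q.Q9_thm (hb : Pool.Agent.TD.Q.Q9b_Stmt) (hf : Pool.Agent.TD.Q.Q9f_Stmt) :
    Pool.Agent.TD.Q.Q9_Stmt := by
  intro K R A _ _ _ _ _ _ _ _ _ φ hφ hft hsep Z F V Y y₀ hF hZ hY hy₀
  obtain ⟨C, B, G, _, _, _, _, _, _, _, i, α, γ, ρ, H, σ, hd⟩ := hb K R A φ hφ hft hsep
  exact hf K R A C B G φ i α γ ρ H σ hd Z F V Y y₀ hF hZ hY hy₀
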