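import Pool.Agent.TD.Q.Stmts

/-!
# Section Q of PAPER2.md (MP_90358a_ag): (Q9b) the algebraic data
-/

open Polynomial

namespace Pool.Agent.TD.Q.Q9b

section
variable {K R A F L : Type} [NormedField K] [CommRing R] [CommRing A] [Algebra K R] [Algebra K A]
  [Field F] [Algebra R F] [Field L] [Algebra F L] [Algebra R L] [IsScalarTower R F L]
  [Algebra K L] [IsScalarTower K R L]

/-- The restriction of an automorphism of `L` over `F` to the integral closure of `R`. -/
def rhoFun (g : L ≃ₐ[F] L) (c : integralClosure R L) : integralClosure R L :=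
  ⟨g c.1, (show IsIntegral R c.1 from c.2).map ((g : L →ₐ[F] L).restrictScalars R)⟩

omit [Algebra R F] [Algebra R L] [IsScalarTower R F L] [IsScalarTower K R L] [CommRing R]
  [Algebra K R] in
theorem fix_K (R : Type) [CommRing R] [Algebra K R] [Algebra R F] [Algebra R L]
    [IsScalarTower R F L] [IsScalarTower K R L] (g : L ≃ₐ[F] L) (k : K) :
    g (algebraMap K L k) = algebraMap K L k := by
  rw [IsScalarTower.algebraMap_apply K R L, IsScalarTower.algebraMap_apply R F L]
  exact g.commutes _

theorem fix_R (g : L ≃ₐ[F] L) (r : R) : g (algebraMap R L r) = algebraMap R L r := by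
  rw [IsScalarTower.algebraMap_apply R F L]
  exact g.commutes _

/-- The action on the integral closure. -/
def rho : (L ≃ₐ[F] L) →* (integralClosure R L ≃ₐ[K] integralClosure R L) where
  toFun g :=
    { toFun := rhoFun g
      invFun := rhoFun g.symm
      left_inv := fun c => Subtype.ext (g.symm_apply_apply c.1)
      right_inv := fun c => Subtype.ext (g.apply_symm_apply c.1)
      map_mul' := fun a b => Subtype.ext (map_mul g a.1 b.1)
      map_add' := fun a b => Subtype.ext (map_add g a.1 b.1)
      commutes' := fun k => Subtype.ext (fix_K R g k) }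
  map_one' := by
    ext c
    rfl
  map_mul' := by
    intro g h
    ext c
    rfl

theorem rho_coe (g : L ≃ₐ[F] L) (c : integralClosure R L) :
    ((rho (K := K) g c : integralClosure R L) : L) = g c.1 := rfl

/-- The inclusion of `R`. -/
def ii : R →ₐ[K] integralClosure R L where
  toFun r := algebraMap R (integralClosure R L) r
  map_one' := map_one _
  map_mul' := map_mul _
  map_zero' := map_zero _
  map_add' := map_add _
  commutes' := fun k => Subtype.ext (IsScalarTower.algebraMap_apply K R L k).symm

theorem ii_coe (r : R) : ((ii (K := K) (L := L) r : integralClosure R L) : L) = algebraMap R L r :=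
  rfl

theorem isInv [IsDomain R] [IsFractionRing R F] [IsIntegrallyClosed R] [IsGalois F L]
    [FiniteDimensional F L] : IsInv (ii (K := K) (R := R) (L := L)) (rho (F := F)) where
  inj := by
    intro r s h
    have h1 : algebraMap R L r = algebraMap R L s := congrArg Subtype.val h
    rw [IsScalarTower.algebraMap_apply R F L, IsScalarTower.algebraMap_apply R F L] at h1
    exact IsFractionRing.injective R F ((algebraMap F L).injective h1)
  fix := fun g r => Subtype.ext (fix_R g r)
  inv := by
    intro c hc
    have h1 : c.1 ∈ Set.range (algebraMap F L) := by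
      rw [IsGalois.mem_range_algebraMap_iff_fixed]
      intro g
      exact congrArg Subtype.val (hc g)
    obtain ⟨x, hx⟩ := h1
    have h2 : IsIntegral R x := by
      have h3 : IsIntegral R (algebraMap F L x) := by rw [hx]; exact c.2
      exact (isIntegral_algebraMap_iff (algebraMap F L).injective).1 h3
    obtain ⟨r, hr⟩ := IsIntegrallyClosed.isIntegral_iff.1 h2
    refine ⟨r, Subtype.ext ?_⟩
    rw [ii_coe, ← hx, ← hr, ← IsScalarTower.algebraMap_apply R F L]

variable (j : A →ₐ[K] L)

/-- The ring `A · C`. -/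
abbrev BB (R : Type) [CommRing R] [Algebra R L] : Subalgebra K L :=
  Algebra.adjoin K (Set.range j ∪ (integralClosure R L : Set L))

/-- The inclusion of `A`. -/
def al (R : Type) [CommRing R] [Algebra R L] : A →ₐ[K] BB j R :=
  j.codRestrict (BB j R) fun a => Algebra.subset_adjoin (Or.inl ⟨a, rfl⟩)

/-- The inclusion of `C`. -/
def ga : integralClosure R L →ₐ[K] BB j R where
  toFun c := ⟨c.1, Algebra.subset_adjoin (Or.inr c.2)⟩
  map_one' := rfl
  map_mul' := fun _ _ => rfl
  map_zero' := rfl
  map_add' := fun _ _ => rfl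
  commutes' := fun _ => rfl

omit [Algebra K R] [IsScalarTower K R L] in
theorem al_coe (a : A) : ((al j R a : BB j R) : L) = j a := rfl

theorem ga_coe (c : integralClosure R L) : ((ga j c : BB j R) : L) = c.1 := rfl

theorem gen : Algebra.adjoin K (Set.range (al j R) ∪ Set.range (ga (R := R) j)) = ⊤ := by
  have h : Set.range (al j R) ∪ Set.range (ga (R := R) j) =
      ((↑) : BB j R → L) ⁻¹' (Set.range j ∪ (integralClosure R L : Set L)) := by
    ext b
    constructor
    · rintro (⟨a, rfl⟩ | ⟨c, rfl⟩)
      · exact Or.inl ⟨a, rfl⟩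
      · exact Or.inr c.2
    · rintro (⟨a, ha⟩ | hc)
      · exact Or.inl ⟨a, Subtype.ext ha⟩
      · exact Or.inr ⟨⟨b.1, hc⟩, rfl⟩
  rw [h]
  exact Algebra.adjoin_adjoin_coe_preimage

theorem int (φ : R →ₐ[K] A) (hj : ∀ r, j (φ r) = algebraMap R L r) :
    (al j R).toRingHom.IsIntegral := by
  have key : ∀ b : BB j R, b ∈ Algebra.adjoin K (Set.range (al j R) ∪ Set.range (ga (R := R) j)) →
      (al j R).toRingHom.IsIntegralElem b := by
    intro b hb
    induction hb using Algebra.adjoin_induction with
    | mem x hx =>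
      rcases hx with ⟨a, rfl⟩ | ⟨c, rfl⟩
      · exact (al j R).toRingHom.isIntegralElem_map
      · obtain ⟨P, hP, hP0⟩ := c.2
        refine ⟨P.map φ.toRingHom, hP.map _, ?_⟩
        rw [eval₂_map]
        apply Subtype.val_injective
        have h1 := hom_eval₂ P ((al j R).toRingHom.comp φ.toRingHom) (BB j R).val.toRingHom
          (ga (R := R) j c)
        have h2 : (BB j R).val.toRingHom.comp ((al j R).toRingHom.comp φ.toRingHom) =
            algebraMap R L := by
          ext r
          exact hj r
        rw [h2] at h1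
        refine h1.trans ?_
        exact hP0
    | algebraMap k =>
      have h1 : algebraMap K (BB j R) k = al j R (algebraMap K A k) := ((al j R).commutes k).symm
      rw [h1]
      exact (al j R).toRingHom.isIntegralElem_map
    | add x y _ _ hx hy => exact hx.add _ hy
    | mul x y _ _ hx hy => exact hx.mul _ hy
  intro b
  exact key b (by rw [gen]; trivial)

/-- The field of fractions of `A` in `L`. -/
def EE [IsDomain R] [IsFractionRing R F] [IsDomain A] (φ : R →ₐ[K] A)
    (hφ : Function.Injective φ) (hj : Function.Injective j)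
    (hjφ : ∀ r, j (φ r) = algebraMap R L r) : IntermediateField F L where
  carrier := {x | ∃ a₁ a₂ : A, a₂ ≠ 0 ∧ x * j a₂ = j a₁}
  mul_mem' := by
    rintro x y ⟨a, b, hb, h⟩ ⟨a', b', hb', h'⟩
    refine ⟨a * a', b * b', mul_ne_zero hb hb', ?_⟩
    rw [map_mul, map_mul, ← h, ← h']
    ring
  add_mem' := by
    rintro x y ⟨a, b, hb, h⟩ ⟨a', b', hb', h'⟩
    refine ⟨a * b' + a' * b, b * b', mul_ne_zero hb hb', ?_⟩
    rw [map_mul, map_add, map_mul, map_mul, ← h, ← h']
    ring
  algebraMap_mem' := by
    intro f
    obtain ⟨r, s, hs, rfl⟩ := IsFractionRing.div_surjective (A := R) f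
    have hs0 : s ≠ 0 := nonZeroDivisors.ne_zero hs
    refine ⟨φ r, φ s, fun h => hs0 (hφ (h.trans (map_zero φ).symm)), ?_⟩
    have h1 : algebraMap R F s ≠ 0 := fun h => hs0 (IsFractionRing.injective R F
      (h.trans (map_zero _).symm))
    rw [hjφ, hjφ, IsScalarTower.algebraMap_apply R F L, IsScalarTower.algebraMap_apply R F L r,
      ← map_mul, div_mul_cancel₀ _ h1]
  inv_mem' := by
    rintro x ⟨a, b, hb, h⟩
    by_cases hx : x = 0
    · subst hx
      exact ⟨0, 1, one_ne_zero, by simp⟩
    · have ha : a ≠ 0 := by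
        rintro rfl
        rw [map_zero] at h
        rcases mul_eq_zero.1 h with h1 | h1
        · exact hx h1
        · exact hb (hj (h1.trans (map_zero j).symm))
      refine ⟨b, a, ha, ?_⟩
      rw [← h, ← mul_assoc, inv_mul_cancel₀ hx, one_mul]

/-- The action of the automorphisms which fix `A` on `A · C`. -/
theorem sig_mem (g : L ≃ₐ[F] L) (hg : ∀ a, g (j a) = j a) {b : L} (hb : b ∈ BB j R) :
    g b ∈ BB j R := by
  induction hb using Algebra.adjoin_induction with
  | mem x hx =>
    rcases hx with ⟨a, rfl⟩ | hc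
    · have h1 : g (j a) = j a := hg a
      show g (j a) ∈ BB j R
      rw [h1]
      exact Algebra.subset_adjoin (Or.inl ⟨a, rfl⟩)
    · exact Algebra.subset_adjoin (Or.inr (rhoFun g ⟨x, hc⟩).2)
  | algebraMap k =>
    rw [fix_K R g k]
    exact (BB j R).algebraMap_mem k
  | add x y _ _ hx hy =>
    rw [map_add]
    exact (BB j R).add_mem hx hy
  | mul x y _ _ hx hy =>
    rw [map_mul]
    exact (BB j R).mul_mem hx hy

/-- The group of the automorphisms which fix `A`. -/
def HH : Subgroup (L ≃ₐ[F] L) where
  carrier := {g | ∀ a, g (j a) = j a}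
  mul_mem' := by
    intro g h hg hh a
    show g (h (j a)) = j a
    rw [hh a, hg a]
  one_mem' := fun a => rfl
  inv_mem' := by
    intro g hg a
    show g.symm (j a) = j a
    rw [AlgEquiv.symm_apply_eq]
    exact (hg a).symm

/-- The action of `H` on `B`. -/
def sig (R : Type) [CommRing R] [Algebra K R] [Algebra R F] [Algebra R L] [IsScalarTower R F L]
    [IsScalarTower K R L] : HH (F := F) j →* (BB j R ≃ₐ[K] BB j R) where
  toFun g :=
    { toFun := fun b => ⟨g.1 b.1, sig_mem j g.1 g.2 b.2⟩
      invFun := fun b => ⟨g.1.symm b.1, sig_mem j g.1.symm (g⁻¹).2 b.2⟩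
      left_inv := fun b => Subtype.ext (g.1.symm_apply_apply b.1)
      right_inv := fun b => Subtype.ext (g.1.apply_symm_apply b.1)
      map_mul' := fun a b => Subtype.ext (map_mul g.1 a.1 b.1)
      map_add' := fun a b => Subtype.ext (map_add g.1 a.1 b.1)
      commutes' := fun k => Subtype.ext (fix_K R g.1 k) }
  map_one' := by
    ext b
    rfl
  map_mul' := by
    intro g h
    ext b
    rfl

theorem degData [IsDomain R] [IsFractionRing R F] [IsIntegrallyClosed R] [IsGalois F L]
    [FiniteDimensional F L] [IsDomain A] (φ : R →ₐ[K] A)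
    (hφ : Function.Injective φ) (hj : Function.Injective j)
    (hjφ : ∀ r, j (φ r) = algebraMap R L r)
    (halg : ∀ a : A, a ≠ 0 → ∃ (a' : A) (r : R), r ≠ 0 ∧ a * a' = φ r) :
    DegData φ (ii (K := K) (R := R) (L := L)) (al j R) (ga j) (rho (F := F)) (HH j)
      (sig j R) where
  comm := fun r => Subtype.ext (hjφ r)
  inv := isInv
  inja := fun a b h => hj (congrArg Subtype.val h)
  injc := fun a b h => Subtype.ext (congrArg (Subtype.val : BB j R → L) h)
  int := int j φ hjφ
  gen := gen j
  actc := fun _ _ => rfl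
  acta := fun h a => Subtype.ext (h.2 a)
  fix := by
    intro c hc
    have h1 : c.1 ∈ EE (F := F) j φ hφ hj hjφ := by
      rw [← IsGalois.fixedField_fixingSubgroup (EE (F := F) j φ hφ hj hjφ),
        IntermediateField.mem_fixedField_iff]
      intro g hg
      have hg' : g ∈ HH (F := F) j := by
        intro a
        exact (IntermediateField.mem_fixingSubgroup_iff _ _).1 hg (j a)
          ⟨a, 1, one_ne_zero, by rw [map_one, mul_one]⟩
      exact congrArg Subtype.val (hc ⟨g, hg'⟩)
    obtain ⟨a₁, a₂, h2, h3⟩ := h1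
    exact ⟨a₁, a₂, h2, Subtype.ext h3⟩
  elt := by
    rintro a ⟨P, hP, hP0⟩
    have h1 : IsIntegral R (j a) := by
      refine ⟨P, hP, ?_⟩
      have h2 := hom_eval₂ P φ.toRingHom j.toRingHom a
      have h3 : j.toRingHom.comp φ.toRingHom = algebraMap R L := by
        ext r
        exact hjφ r
      rw [h3, hP0, map_zero] at h2
      exact h2.symm
    exact ⟨⟨j a, h1⟩, rfl⟩
  gal := by
    intro t ht a
    have hal : Algebra.IsAlgebraic R L := by
      have := IsLocalization.isAlgebraic F (nonZeroDivisors R)
      exact Algebra.IsAlgebraic.trans R F L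
    obtain ⟨r, hr, hra⟩ := (hal.isAlgebraic (j a)).exists_integral_multiple
    have h1 := ht ⟨r • j a, hra⟩ (by
      rintro ⟨h, hh⟩
      apply Subtype.ext
      show h (r • j a) = r • j a
      rw [Algebra.smul_def, map_mul, fix_R, hh a])
    have h2 : t (r • j a) = r • j a := congrArg Subtype.val h1
    rw [Algebra.smul_def, map_mul, fix_R] at h2
    refine mul_left_cancel₀ ?_ h2
    rw [IsScalarTower.algebraMap_apply R F L]
    exact fun h => hr (IsFractionRing.injective R F (((algebraMap F L).injective
      (h.trans (map_zero _).symm)).trans (map_zero _).symm))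
  alga := halg
  algc := by
    intro c hc
    have h1 : IsAlgebraic R c := (integralClosure.isIntegral c).isAlgebraic
    obtain ⟨r, hr, c', h2⟩ := h1.exists_nonzero_dvd (mem_nonZeroDivisors_of_ne_zero hc)
    exact ⟨c', r, hr, h2.symm⟩

end

theorem alg_of_sep {K R A : Type} [NormedField K] [CommRing R] [CommRing A] [Algebra K R]
    [Algebra K A] [IsDomain R] [IsDomain A] (φ : R →ₐ[K] A) (h : SepAlg φ) (a : A) (ha : a ≠ 0) : ∃ (a' : A) (r : R), r ≠ 0 ∧ a * a' = φ r := by
  let := φ.toRingHom.toAlgebra
  obtain ⟨P, hP, hP0⟩ := h a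
  have h1 : IsAlgebraic R a := by
    refine ⟨P, ?_, hP0⟩
    rintro rfl
    rw [Polynomial.map_zero] at hP
    exact hP.ne_zero rfl
  obtain ⟨r, hr, a', h2⟩ := h1.exists_nonzero_dvd (mem_nonZeroDivisors_of_ne_zero ha)
  exact ⟨a', r, hr, h2.symm⟩

end Pool.Agent.TD.Q.Q9b

namespace Pool.Agent.TD.Q

theorem Q9b_thm (hg : Q9g_Stmt) : Q9b_Stmt := by
  intro K R A _ _ _ _ _ _ _ _ φ hφ hft hs
  obtain ⟨L, _, _, j, h1, h2, h3, h4⟩ := hg K R A φ hφ hft hs
  let : Algebra R L := ((algebraMap (FractionRing R) L).comp
    (algebraMap R (FractionRing R))).toAlgebra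
  have : IsScalarTower R (FractionRing R) L := IsScalarTower.of_algebraMap_eq' rfl
  let : Algebra K L := ((algebraMap R L).comp (algebraMap K R)).toAlgebra
  have : IsScalarTower K R L := IsScalarTower.of_algebraMap_eq' rfl
  let j' : A →ₐ[K] L := { j with
    commutes' := fun k => by
      show j (algebraMap K A k) = algebraMap K L k
      rw [← φ.commutes k, h4]
      rfl }
  exact ⟨integralClosure R L, Q9b.BB j' R, L ≃ₐ[FractionRing R] L, inferInstance, inferInstance,
    inferInstance, inferInstance, inferInstance, inferInstance, inferInstance, _, _, _, _, _, _,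
    Q9b.degData j' φ hφ h3 h4 (Q9b.alg_of_sep φ hs)⟩

end Pool.Agent.TD.Q
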