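import Pool.Agent.TD.Q.Stmts

/-!
# (Q9d) the degree is constant (MP_90358a_ag, section Q of PAPER2.md)
-/

open scoped Topology NNReal

namespace Pool.Agent.TD.Q

namespace Q9d

variable {K R C G : Type} [NormedField K] [CommRing R] [CommRing C] [Algebra K R] [Algebra K C]
  [Group G]

/-- the number of translates of `w` in `W` does not change if `w` is moved by the group. -/
theorem ncard_act (ρ : G →* (C ≃ₐ[K] C)) (W : Set (Ber K C)) (s : G) (w : Ber K C) :
    {g : G | act ρ g (act ρ s w) ∈ W}.ncard = {g : G | act ρ g w ∈ W}.ncard := by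
  have h : (fun g : G => s * g) '' {g : G | act ρ g (act ρ s w) ∈ W} =
      {g : G | act ρ g w ∈ W} := by
    ext g
    constructor
    · rintro ⟨g', hg', rfl⟩
      show act ρ (s * g') w ∈ W
      rw [act_mul]
      exact hg'
    · intro hg
      refine ⟨s⁻¹ * g, ?_, by simp⟩
      show act ρ (s⁻¹ * g) (act ρ s w) ∈ W
      rw [← act_mul]
      simpa using hg
  rw [← h, Set.ncard_image_of_injective _ (mul_right_injective s)]

/-- the set of the translates in `W` is locally constant over `Z`. -/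
theorem eventually_eq [Finite G] {i : R →ₐ[K] C} {ρ : G →* (C ≃ₐ[K] C)} (h : IsInv i ρ)
    (Z : Set (Ber K R)) (W : Set (Ber K C)) (hW : IsClosed W)
    (hZ : ∀ w ∈ W, ∀ᶠ w' in 𝓝 w, Ber.res i w' ∈ Z → w' ∈ W) (w : Ber K C) :
    ∀ᶠ w' in 𝓝 w, Ber.res i w' ∈ Z → {g : G | act ρ g w' ∈ W} = {g : G | act ρ g w ∈ W} := by
  have h1 : ∀ g : G, ∀ᶠ w' in 𝓝 w, Ber.res i w' ∈ Z → (act ρ g w' ∈ W ↔ act ρ g w ∈ W) := by
    intro g
    by_cases hg : act ρ g w ∈ W
    · have h2 := (act_continuous ρ g).continuousAt.eventually (hZ _ hg)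
      filter_upwards [h2] with w' hw' hz
      refine ⟨fun _ => hg, fun _ => hw' ?_⟩
      rw [h.res_act]
      exact hz
    · have h2 : ∀ᶠ u in 𝓝 (act ρ g w), u ∉ W := hW.isOpen_compl.mem_nhds hg
      have h3 := (act_continuous ρ g).continuousAt.eventually h2
      filter_upwards [h3] with w' hw' _
      exact ⟨fun hc => absurd hc hw', fun hc => absurd hc hg⟩
  filter_upwards [Filter.eventually_all.2 h1] with w' hw' hz
  ext g
  exact hw' g hz

end Q9d

/-- (Q9d) the degree is constant. -/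
theorem Q9d_thm (h2 : Q2_Stmt) (h3 : Q2o_Stmt) : Q9d_Stmt := by
  intro K R C G _ _ _ _ _ _ _ _ i ρ hinv Z hZ W hW hl w w' hw hw'
  classical
  have hsurj : Function.Surjective (Ber.res i : Ber K C → Ber K R) :=
    int_surj i hinv.inj hinv.isIntegral
  -- the degree as a function on the base
  choose sec hsec using hsurj
  have hn : ∀ u : Ber K C, {g : G | act ρ g (sec (Ber.res i u)) ∈ W}.ncard =
      {g : G | act ρ g u ∈ W}.ncard := by
    intro u
    obtain ⟨s, hs⟩ := h2 K R C G i ρ hinv u (sec (Ber.res i u)) (hsec _).symm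
    rw [hs, Q9d.ncard_act]
  have hc : ContinuousOn (fun y : Ber K R => {g : G | act ρ g (sec y) ∈ W}.ncard) Z := by
    intro y hy
    have h4 := Q9d.eventually_eq hinv Z W hW hl (sec y)
    have h5 : Ber.res i '' {w' | Ber.res i w' ∈ Z →
        {g : G | act ρ g w' ∈ W} = {g : G | act ρ g (sec y) ∈ W}} ∈ 𝓝 y := by
      have h6 := (h3 K R C G i ρ hinv).image_mem_nhds h4
      rwa [hsec] at h6
    have h7 : ∀ᶠ y' in 𝓝[Z] y, {g : G | act ρ g (sec y') ∈ W}.ncard =
        {g : G | act ρ g (sec y) ∈ W}.ncard := by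
      filter_upwards [mem_nhdsWithin_of_mem_nhds h5, self_mem_nhdsWithin] with y' hy' hz
      obtain ⟨u, hu, rfl⟩ := hy'
      rw [hn u, hu hz]
    exact (continuousWithinAt_const (b := {g : G | act ρ g (sec y) ∈ W}.ncard)).congr_of_eventuallyEq
      h7 rfl
  have h8 := hZ.constant hc hw hw'
  simpa only [hn] using h8

end Pool.Agent.TD.Q
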