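import Pool.Agent.TD.Q.Stmts

/-!
# (Q9e) the degree at `y₀` (MP_90358a_ag, PAPER2.md, section Q)
-/

open scoped Topology NNReal

namespace Pool.Agent.TD.Q.Q9e

section approx
variable {K R A : Type} [NormedField K] [CommRing R] [CommRing A] [Algebra K R] [Algebra K A]

/-- quotients of approximable elements are approximable -/
theorem quot {φ : R →ₐ[K] A} {z : Ber K A} (hd : Dens φ z) {a₁ a₂ : A} (h2 : z.v a₂ ≠ 0)
    {ε : ℝ} (hε : 0 < ε) : ∃ b r : R, z.v (φ r) ≠ 0 ∧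
      z.v (φ r * a₁ - φ b * a₂) < ε * z.v (φ r) * z.v a₂ := by
  have p2 : 0 < z.v a₂ := lt_of_le_of_ne (z.nonneg _) (Ne.symm h2)
  have p1 : 0 ≤ z.v a₁ := z.nonneg _
  set s := z.v a₂ with hs
  set u := z.v a₁ with hu
  set δ := min (s / 2) (ε * s ^ 2 / (2 * (u + s))) with hδ
  have hδ0 : 0 < δ := lt_min (by positivity) (by positivity)
  have hδ1 : δ < s := (min_le_left _ _).trans_lt (by linarith)
  have hδ2 : δ * (u + s) < ε * s ^ 2 := by
    have h : δ ≤ ε * s ^ 2 / (2 * (u + s)) := min_le_right _ _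
    rw [le_div_iff₀ (by positivity)] at h
    have : 0 < ε * s ^ 2 := by positivity
    nlinarith
  obtain ⟨b1, c1, hc1, e1⟩ := hd a₁ δ hδ0
  obtain ⟨b2, c2, hc2, e2⟩ := hd a₂ δ hδ0
  have q1 : 0 < z.v (φ c1) := lt_of_le_of_ne (z.nonneg _) (Ne.symm hc1)
  have q2 : 0 < z.v (φ c2) := lt_of_le_of_ne (z.nonneg _) (Ne.symm hc2)
  -- `|b2| = |c2| |a2|`
  have hb2 : z.v (φ b2) = z.v (φ c2) * s := by
    rw [hs, ← z.mul]
    apply z.sub_eq
    rw [z.mul]
    calc z.v (φ c2 * a₂ - φ b2) < δ * z.v (φ c2) := e2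
      _ ≤ z.v (φ c2) * z.v a₂ := by rw [mul_comm]; gcongr
  -- `|b1| ≤ |c1| (|a1| + |a2|)`
  have hb1 : z.v (φ b1) ≤ z.v (φ c1) * (u + s) := by
    calc z.v (φ b1) = z.v (φ c1 * a₁ - (φ c1 * a₁ - φ b1)) := by congr 1; ring
      _ ≤ max (z.v (φ c1 * a₁)) (z.v (φ c1 * a₁ - φ b1)) := z.sub _ _
      _ ≤ z.v (φ c1) * (u + s) := by
          apply max_le
          · rw [z.mul]
            gcongr
            linarith
          · calc z.v (φ c1 * a₁ - φ b1) ≤ δ * z.v (φ c1) := e1.le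
              _ ≤ z.v (φ c1) * (u + s) := by
                  rw [mul_comm]
                  gcongr
                  linarith
  refine ⟨b1 * c2, c1 * b2, ?_, ?_⟩
  · rw [map_mul, z.mul, hb2]
    positivity
  · have key : φ (c1 * b2) * a₁ - φ (b1 * c2) * a₂ =
        φ b2 * (φ c1 * a₁ - φ b1) - φ b1 * (φ c2 * a₂ - φ b2) := by
      rw [map_mul, map_mul]
      ring
    have hgoal : ε * z.v (φ (c1 * b2)) * s = ε * s ^ 2 * (z.v (φ c1) * z.v (φ c2)) := by
      rw [map_mul, z.mul, hb2]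
      ring
    rw [key, hgoal]
    have m1 : z.v (φ b2 * (φ c1 * a₁ - φ b1)) ≤ δ * (u + s) * (z.v (φ c1) * z.v (φ c2)) := by
      rw [z.mul, hb2]
      calc z.v (φ c2) * s * z.v (φ c1 * a₁ - φ b1) ≤ z.v (φ c2) * s * (δ * z.v (φ c1)) := by
            gcongr
        _ = δ * s * (z.v (φ c1) * z.v (φ c2)) := by ring
        _ ≤ δ * (u + s) * (z.v (φ c1) * z.v (φ c2)) := by
            gcongr
            linarith
    have m2 : z.v (φ b1 * (φ c2 * a₂ - φ b2)) ≤ δ * (u + s) * (z.v (φ c1) * z.v (φ c2)) := by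
      rw [z.mul]
      calc z.v (φ b1) * z.v (φ c2 * a₂ - φ b2) ≤ z.v (φ c1) * (u + s) * (δ * z.v (φ c2)) := by
            apply mul_le_mul hb1 e2.le (z.nonneg _) (by positivity)
        _ = δ * (u + s) * (z.v (φ c1) * z.v (φ c2)) := by ring
    calc z.v (φ b2 * (φ c1 * a₁ - φ b1) - φ b1 * (φ c2 * a₂ - φ b2))
        ≤ max (z.v (φ b2 * (φ c1 * a₁ - φ b1))) (z.v (φ b1 * (φ c2 * a₂ - φ b2))) := z.sub _ _
      _ ≤ δ * (u + s) * (z.v (φ c1) * z.v (φ c2)) := max_le m1 m2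
      _ < ε * s ^ 2 * (z.v (φ c1) * z.v (φ c2)) := by gcongr

end approx

/-- (Q9e) -/
theorem main (h2 : Q2_Stmt) (h3 : Q2o_Stmt) (h9 : Q9k_Stmt) (hw : Q9w_Stmt) : Q9e_Stmt := by
  intro K R A C B G _ _ _ _ _ _ _ _ _ _ _ _ _ φ i α γ ρ H σ hD Z F V Y y₀ hF hY w₀ hw₀ hy₀
  have hW := hw K R A C B G φ i α γ ρ H σ hD Z F hF
  apply Set.Subset.antisymm
  swap
  · intro s hs
    exact hW.2.2.2 w₀ hw₀ s hs
  intro s hs
  have hs' : act ρ s w₀ ∈ WW α γ F := hs
  -- a neighbourhood of the points of `WW`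
  set N₁ : Set (Ber K C) := Ber.res γ '' (Ber.res α ⁻¹' V) with hN₁
  have hN : ∀ w ∈ WW α γ F, N₁ ∈ 𝓝 w := by
    rintro w ⟨b, hb, rfl⟩
    apply (h9 K R A C B G φ i α γ ρ H σ hD b (hF.zmp _ hb)).2.1
    exact (Ber.res_continuous α).continuousAt (hY.nhd _ hb)
  have hN2 : N₁ ∩ act ρ s ⁻¹' N₁ ∈ 𝓝 w₀ :=
    Filter.inter_mem (hN _ hw₀) ((act_continuous ρ s).continuousAt (hN _ hs'))
  have hN3 : Ber.res i '' (N₁ ∩ act ρ s ⁻¹' N₁) ∈ 𝓝 y₀ := by
    rw [← hy₀]
    exact (h3 K R C G i ρ hD.inv).image_mem_nhds hN2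
  obtain ⟨y, ⟨w, ⟨⟨b1, hb1, hwb1⟩, ⟨b2, hb2, hwb2⟩⟩, hyw⟩, hyY⟩ :=
    mem_closure_iff_nhds.1 hY.cls _ hN3
  -- the points of `M(A)` under `b1`, `b2` are equal
  have hcomm : ∀ b : Ber K B, Ber.res φ (Ber.res α b) = Ber.res i (Ber.res γ b) := by
    intro b
    apply Ber.ext_v
    intro r
    rw [Ber.res_v, Ber.res_v, Ber.res_v, Ber.res_v, hD.comm]
  have hy1 : Ber.res φ (Ber.res α b1) = y := by rw [hcomm, hwb1, hyw]
  have hy2 : Ber.res φ (Ber.res α b2) = y := by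
    rw [hcomm, hwb2, hD.inv.res_act, hyw]
  have hz : Ber.res α b1 = Ber.res α b2 :=
    hY.uniq _ hb1 _ hb2 (by rw [hy1]; exact hyY) (by rw [hy1, hy2])
  set z := Ber.res α b1 with hzdef
  have hker := hY.ker y hyY
  have hzker : ∀ a : A, a ≠ 0 → z.v a ≠ 0 := by
    intro a ha h0
    obtain ⟨a', r, hr, har⟩ := hD.alga a ha
    apply hr
    apply hker
    rw [← hy1, Ber.res_v, ← har, z.mul, h0, zero_mul]
  have hwker : ∀ c : C, w.v c = 0 → c = 0 := by
    intro c h0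
    by_contra hc
    obtain ⟨c', r, hr, har⟩ := hD.algc c hc
    apply hr
    apply hker
    rw [← hyw, Ber.res_v, ← har, w.mul, h0, zero_mul]
  have hv1 : ∀ c, w.v c = b1.v (γ c) := by
    intro c
    rw [← hwb1, Ber.res_v]
  have hv2 : ∀ c, (act ρ s w).v c = b2.v (γ c) := by
    intro c
    rw [← hwb2, Ber.res_v]
  have hz1 : ∀ a, b1.v (α a) = z.v a := fun a => rfl
  have hz2 : ∀ a, b2.v (α a) = z.v a := by
    intro a
    rw [hz, Ber.res_v]
  -- `w` and `act s w` agree on `C^H`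
  have hagree : ∀ c, (∀ h : H, ρ h c = c) → w.v c = (act ρ s w).v c := by
    intro c hc
    obtain ⟨a₁, a₂, ha₂, hac⟩ := hD.fix c hc
    have e1 : w.v c * z.v a₂ = z.v a₁ := by
      rw [hv1, ← hz1, ← hz1, ← b1.mul, hac]
    have e2 : (act ρ s w).v c * z.v a₂ = z.v a₁ := by
      rw [hv2, ← hz2, ← hz2, ← b2.mul, hac]
    exact mul_right_cancel₀ (hzker a₂ ha₂) (e1.trans e2.symm)
  obtain ⟨h, hh⟩ := h2 K (inva (ρ.comp H.subtype)) C H (inva (ρ.comp H.subtype)).val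
    (ρ.comp H.subtype) (isInv_inva _) w (act ρ s w) (by
      apply Ber.ext_v
      intro c
      exact hagree c c.2)
  have hh' : act ρ s w = act ρ (h : G) w := hh
  -- `t = s h⁻¹` fixes `w`
  have ht : act ρ (s * (h : G)⁻¹) w = w := by
    rw [act_mul, hh', act_inv_act]
  have htH : s * (h : G)⁻¹ ∈ H := by
    apply hD.gal
    intro c hc
    obtain ⟨a₁, a₂, ha₂, hac⟩ := hD.fix c hc
    generalize s * (h : G)⁻¹ = t at ht ⊢
    have hpos : 0 < z.v a₂ := lt_of_le_of_ne (z.nonneg _) (Ne.symm (hzker a₂ ha₂))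
    have hsmall : ∀ ε : ℝ, 0 < ε → w.v (ρ t c - c) < ε := by
      intro ε hε
      obtain ⟨b, r, hr, hbr⟩ := quot (hY.dens z hb1 (by rw [hy1]; exact hyY)) (a₁ := a₁)
        (hzker a₂ ha₂) hε
      have hir : w.v (i r) = z.v (φ r) := by
        rw [hv1, ← hD.comm, hz1]
      have hposr : 0 < w.v (i r) := by
        rw [hir]
        exact lt_of_le_of_ne (z.nonneg _) (Ne.symm hr)
      -- `|r c - b|_w < ε |r|_w`
      have hap : w.v (i r * c - i b) < ε * w.v (i r) := by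
        have e : w.v (i r * c - i b) * z.v a₂ = z.v (φ r * a₁ - φ b * a₂) := by
          rw [hv1, ← hz1, ← hz1, ← b1.mul]
          congr 1
          rw [map_sub, map_mul, map_sub, map_mul, map_mul, ← hac, hD.comm, hD.comm]
          ring
        rw [← e, ← hir] at hbr
        exact lt_of_mul_lt_mul_right hbr hpos.le
      have hap' : w.v (i r * ρ t c - i b) < ε * w.v (i r) := by
        have e : w.v (i r * ρ t c - i b) = w.v (i r * c - i b) := by
          have e0 : ρ t (i r * c - i b) = i r * ρ t c - i b := by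
            rw [map_sub, map_mul (ρ t), hD.inv.fix, hD.inv.fix]
          conv_rhs => rw [← ht]
          rw [act_v, e0]
        rw [e]
        exact hap
      have hmul : w.v (i r) * w.v (ρ t c - c) < w.v (i r) * ε := by
        rw [← w.mul]
        calc w.v (i r * (ρ t c - c)) = w.v ((i r * ρ t c - i b) - (i r * c - i b)) := by
              congr 1
              ring
          _ ≤ max (w.v (i r * ρ t c - i b)) (w.v (i r * c - i b)) := w.sub _ _
          _ < ε * w.v (i r) := max_lt hap' hap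
          _ = w.v (i r) * ε := mul_comm _ _
      exact lt_of_mul_lt_mul_left hmul hposr.le
    have hzero : w.v (ρ t c - c) = 0 := by
      apply le_antisymm _ (w.nonneg _)
      by_contra hc'
      push Not at hc'
      exact lt_irrefl _ (hsmall _ hc')
    exact sub_eq_zero.1 (hwker _ hzero)
  have : s = s * (h : G)⁻¹ * h := by group
  show s ∈ (H : Set G)
  rw [this]
  exact H.mul_mem htH h.2

end Pool.Agent.TD.Q.Q9e

theorem Pool.Agent.TD.Q.Q9e_thm (h2 : Pool.Agent.TD.Q.Q2_Stmt) (h3 : Pool.Agent.TD.Q.Q2o_Stmt)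
    (h9 : Pool.Agent.TD.Q.Q9k_Stmt) (hw : Pool.Agent.TD.Q.Q9w_Stmt) : Pool.Agent.TD.Q.Q9e_Stmt :=
  Pool.Agent.TD.Q.Q9e.main h2 h3 h9 hw
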