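import Pool.Agent.TD.Q.Stmts

/-!
# Section Q of PAPER2.md: module Q9f, maps of degree one for given algebraic data
-/

open scoped Topology NNReal

namespace Pool.Agent.TD.Q

namespace Q9f

section
variable {K R A C B G : Type} [NormedField K] [CommRing R] [CommRing A] [CommRing C]
    [CommRing B] [Algebra K R] [Algebra K A] [Algebra K C] [Algebra K B] [Group G]
    {φ : R →ₐ[K] A} {i : R →ₐ[K] C} {α : A →ₐ[K] B} {γ : C →ₐ[K] B} {ρ : G →* (C ≃ₐ[K] C)}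
    {H : Subgroup G} {σ : H →* (B ≃ₐ[K] B)}

theorem res_comm (hD : DegData φ i α γ ρ H σ) (b : Ber K B) :
    Ber.res i (Ber.res γ b) = Ber.res φ (Ber.res α b) := by
  apply Ber.ext_v
  intro r
  rw [Ber.res_v, Ber.res_v, Ber.res_v, Ber.res_v, hD.comm]

theorem act_res (hD : DegData φ i α γ ρ H σ) (s : H) (b : Ber K B) :
    act ρ s (Ber.res γ b) = Ber.res γ (act σ s b) := by
  apply Ber.ext_v
  intro c
  rw [act_v, Ber.res_v, Ber.res_v, act_v, hD.actc]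

theorem res_act_sigma (hD : DegData φ i α γ ρ H σ) (s : H) (b : Ber K B) :
    Ber.res α (act σ s b) = Ber.res α b := by
  apply Ber.ext_v
  intro a
  rw [Ber.res_v, Ber.res_v, act_v, hD.acta]

/-- The final approximation. -/
theorem approx (N : Ber K B) {r₁ b₁ r₂ b₂ c₁ c₂ a : B} {ε ε' : ℝ} (hε : 0 < ε)
    (hc : c₁ = c₂ * a) (hc₂ : N.v c₂ ≠ 0) (hr₁ : N.v r₁ ≠ 0) (hr₂ : N.v r₂ ≠ 0)
    (h₁ : N.v (r₁ * c₁ - b₁) < ε' * N.v r₁) (h₂ : N.v (r₂ * c₂ - b₂) < ε' * N.v r₂)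
    (e₁ : ε' ≤ N.v c₂) (e₂ : ε' * N.v a < ε * N.v c₂) (e₃ : ε' ≤ ε * N.v c₂) :
    N.v (r₁ * b₂) ≠ 0 ∧ N.v (r₁ * b₂ * a - b₁ * r₂) < ε * N.v (r₁ * b₂) := by
  have p1 : 0 < N.v r₁ := lt_of_le_of_ne (N.nonneg _) hr₁.symm
  have p2 : 0 < N.v r₂ := lt_of_le_of_ne (N.nonneg _) hr₂.symm
  have p3 : 0 < N.v c₂ := lt_of_le_of_ne (N.nonneg _) hc₂.symm
  have hb : N.v b₂ = N.v r₂ * N.v c₂ := by
    rw [← N.mul]
    apply N.sub_eq
    rw [N.mul]
    calc N.v (r₂ * c₂ - b₂) < ε' * N.v r₂ := h₂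
      _ ≤ N.v c₂ * N.v r₂ := mul_le_mul_of_nonneg_right e₁ p2.le
      _ = N.v r₂ * N.v c₂ := mul_comm _ _
  have hv : N.v (r₁ * b₂) = N.v r₁ * (N.v r₂ * N.v c₂) := by rw [N.mul, hb]
  refine ⟨?_, ?_⟩
  · rw [hv]
    positivity
  · have he : r₁ * b₂ * a - b₁ * r₂ = r₁ * a * (b₂ - r₂ * c₂) + r₂ * (r₁ * c₁ - b₁) := by
      rw [hc]; ring
    rw [he, hv]
    refine lt_of_le_of_lt (N.add _ _) (max_lt ?_ ?_)
    · rw [N.mul, N.mul, N.sub_comm]
      have h3 : N.v r₁ * N.v a * N.v (r₂ * c₂ - b₂) ≤ N.v r₁ * N.v a * (ε' * N.v r₂) :=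
        mul_le_mul_of_nonneg_left h₂.le (mul_nonneg p1.le (N.nonneg _))
      have h4 : N.v r₁ * N.v r₂ * (ε' * N.v a) < N.v r₁ * N.v r₂ * (ε * N.v c₂) :=
        mul_lt_mul_of_pos_left e₂ (mul_pos p1 p2)
      calc N.v r₁ * N.v a * N.v (r₂ * c₂ - b₂) ≤ N.v r₁ * N.v a * (ε' * N.v r₂) := h3
        _ = N.v r₁ * N.v r₂ * (ε' * N.v a) := by ring
        _ < N.v r₁ * N.v r₂ * (ε * N.v c₂) := h4
        _ = ε * (N.v r₁ * (N.v r₂ * N.v c₂)) := by ring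
    · rw [N.mul]
      calc N.v r₂ * N.v (r₁ * c₁ - b₁) < N.v r₂ * (ε' * N.v r₁) :=
            mul_lt_mul_of_pos_left h₁ p2
        _ ≤ N.v r₂ * (ε * N.v c₂ * N.v r₁) := by
            apply mul_le_mul_of_nonneg_left _ p2.le
            exact mul_le_mul_of_nonneg_right e₃ p1.le
        _ = ε * (N.v r₁ * (N.v r₂ * N.v c₂)) := by ring

end

end Q9f

open Q9f in
theorem Q9f_thm (h2 : Q2_Stmt) (h8 : Q8_Stmt) (h9 : Q9k_Stmt) (hw : Q9w_Stmt) (hd : Q9d_Stmt)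
    (he : Q9e_Stmt) : Q9f_Stmt := by
  intro K R A C B G _ _ _ _ _ _ _ _ _ _ _ _ _ φ i α γ ρ H σ hD Z F V Y y₀ hF hZ hY hy₀
  obtain ⟨hWc, hWZ, hWo, hWH⟩ := hw K R A C B G φ i α γ ρ H σ hD Z F hF
  have hWcl : IsClosed (WW α γ F) := hWc.isClosed
  have hsα : Function.Surjective (Ber.res α : Ber K B → Ber K A) := int_surj α hD.inja hD.int
  have hsi : Function.Surjective (Ber.res i : Ber K C → Ber K R) :=
    int_surj i hD.inv.inj hD.inv.isIntegral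
  obtain ⟨z0, hz0F, hz0⟩ := hy₀
  obtain ⟨b0, hb0⟩ := hsα z0
  have hw0 : Ber.res γ b0 ∈ WW α γ F := ⟨b0, by rw [hb0]; exact hz0F, rfl⟩
  have hw0' : Ber.res i (Ber.res γ b0) = y₀ := by rw [res_comm hD, hb0, hz0]
  have e0 := he K R A C B G φ i α γ ρ H σ hD Z F V Y y₀ hF hY (Ber.res γ b0) hw0 hw0'
  have key : ∀ w : Ber K C, Ber.res i w ∈ Z →
      {g : G | act ρ g w ∈ WW α γ F}.ncard = (H : Set G).ncard := by
    intro w hwZ
    rw [hd K R C G i ρ hD.inv Z hZ (WW α γ F) hWcl hWo w (Ber.res γ b0) hwZ (hWZ _ hw0), e0]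
  have key2 : ∀ w ∈ WW α γ F, (H : Set G) = {g : G | act ρ g w ∈ WW α γ F} := by
    intro w hwW
    apply Set.eq_of_subset_of_ncard_le
    · intro h hh
      exact hWH w hwW h hh
    · exact (key w (hWZ w hwW)).le
    · exact Set.toFinite _
  refine ⟨?_, ?_, ?_⟩
  · intro z hz z2 hz2 hzz
    obtain ⟨b, rfl⟩ := hsα z
    obtain ⟨b2, rfl⟩ := hsα z2
    have hwW : Ber.res γ b ∈ WW α γ F := ⟨b, hz, rfl⟩
    have hwW2 : Ber.res γ b2 ∈ WW α γ F := ⟨b2, hz2, rfl⟩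
    have h3 : Ber.res i (Ber.res γ b) = Ber.res i (Ber.res γ b2) := by
      rw [res_comm hD, res_comm hD]
      exact hzz
    obtain ⟨s, hs⟩ := h2 K R C G i ρ hD.inv _ _ h3
    have hsH : s ∈ H := by
      have h4 : s ∈ {g : G | act ρ g (Ber.res γ b) ∈ WW α γ F} := by
        show act ρ s (Ber.res γ b) ∈ WW α γ F
        rw [← hs]
        exact hwW2
      rw [← key2 _ hwW] at h4
      exact h4
    have h5 : Ber.res γ b2 = Ber.res γ (act σ ⟨s, hsH⟩ b) := by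
      rw [hs]
      exact act_res hD ⟨s, hsH⟩ b
    have h6 := (h9 K R A C B G φ i α γ ρ H σ hD b2 (hF.zmp _ hz2)).1 _ h5
    rw [h6, res_act_sigma hD]
  · apply Set.Subset.antisymm
    · rintro _ ⟨z, hz, rfl⟩
      exact hF.maps z hz
    · intro y hy
      obtain ⟨w, rfl⟩ := hsi y
      have h3 := key w hy
      have h4 : (H : Set G).ncard ≠ 0 := by
        intro h0
        rw [Set.ncard_eq_zero (Set.toFinite _)] at h0
        have : (1 : G) ∈ (H : Set G) := H.one_mem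
        rw [h0] at this
        exact this
      rw [← h3] at h4
      obtain ⟨g, hg⟩ := Set.nonempty_of_ncard_ne_zero h4
      obtain ⟨b, hbF, hb⟩ := hg
      refine ⟨Ber.res α b, hbF, ?_⟩
      rw [← res_comm hD, hb, hD.inv.res_act]
  · intro z hz a ε hε
    obtain ⟨b, rfl⟩ := hsα z
    have hwW : Ber.res γ b ∈ WW α γ F := ⟨b, hz, rfl⟩
    obtain ⟨c₁, c₂, hc₁, hc₂, hne, hcc⟩ :=
      (h9 K R A C B G φ i α γ ρ H σ hD b (hF.zmp _ hz)).2.2 a
    have hst : ∀ g, act ρ g (Ber.res γ b) = Ber.res γ b → g ∈ H := by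
      intro g hg
      have h4 : g ∈ {g : G | act ρ g (Ber.res γ b) ∈ WW α γ F} := by
        show act ρ g (Ber.res γ b) ∈ WW α γ F
        rw [hg]
        exact hwW
      rw [← key2 _ hwW] at h4
      exact h4
    have p3 : 0 < b.v (γ c₂) := lt_of_le_of_ne (b.nonneg _) (Ne.symm hne)
    set x := b.v (γ c₂) with hx
    have ha0 : 0 ≤ b.v (α a) := b.nonneg _
    have hε' : 0 < min x (ε * x / (b.v (α a) + 1)) := lt_min p3 (by positivity)
    obtain ⟨b₁, r₁, hr₁, h₁⟩ := h8 K R C G i ρ hD.inv (Ber.res γ b) c₁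
      (fun g hg => hc₁ ⟨g, hst g hg⟩) _ hε'
    obtain ⟨b₂, r₂, hr₂, h₂⟩ := h8 K R C G i ρ hD.inv (Ber.res γ b) c₂
      (fun g hg => hc₂ ⟨g, hst g hg⟩) _ hε'
    rw [Ber.res_v] at hr₁ hr₂
    rw [Ber.res_v, Ber.res_v, map_sub, map_mul] at h₁ h₂
    have e3 : min x (ε * x / (b.v (α a) + 1)) ≤ ε * x := by
      refine (min_le_right _ _).trans ?_
      rw [div_le_iff₀ (by positivity)]
      nlinarith [mul_nonneg (mul_nonneg hε.le p3.le) ha0]
    have e2 : min x (ε * x / (b.v (α a) + 1)) * b.v (α a) < ε * x := by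
      calc min x (ε * x / (b.v (α a) + 1)) * b.v (α a)
          ≤ ε * x / (b.v (α a) + 1) * b.v (α a) :=
            mul_le_mul_of_nonneg_right (min_le_right _ _) ha0
        _ < ε * x / (b.v (α a) + 1) * (b.v (α a) + 1) := by
            apply mul_lt_mul_of_pos_left _ (by positivity)
            linarith
        _ = ε * x := by field_simp
    have h7 := approx b (r₁ := γ (i r₁)) (b₁ := γ (i b₁)) (r₂ := γ (i r₂)) (b₂ := γ (i b₂))
      (c₁ := γ c₁) (c₂ := γ c₂) (a := α a) hε hcc hne hr₁ hr₂ h₁ h₂ (min_le_left _ _) e2 e3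
    refine ⟨b₁ * r₂, r₁ * b₂, ?_, ?_⟩
    · rw [Ber.res_v, hD.comm, map_mul, map_mul]
      exact h7.1
    · rw [Ber.res_v, Ber.res_v, map_sub, map_mul, hD.comm, hD.comm, map_mul, map_mul, map_mul,
        map_mul]
      exact h7.2

end Pool.Agent.TD.Q
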