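import Pool.Agent.TD.Q.Stmts

/-!
# (Q9g) The Galois extension

The fraction field of `A` is a finite separable extension of the fraction field of `R`; it is
contained in a finite Galois extension.
-/

set_option autoImplicit false

open Polynomial

namespace Pool.Agent.TD.Q

namespace Q9g

/-- A finite separable extension is contained in a finite Galois extension. -/
theorem exists_galois (F E : Type) [Field F] [Field E] [Algebra F E] [FiniteDimensional F E]
    [Algebra.IsSeparable F E] : ∃ (L : Type) (_ : Field L) (_ : Algebra F L) (_ : E →ₐ[F] L),
      IsGalois F L ∧ FiniteDimensional F L := by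
  have h1 : Algebra.IsSeparable F (SeparableClosure E) :=
    Algebra.IsSeparable.trans F E (SeparableClosure E)
  have h2 : IsSepClosure F (SeparableClosure E) := ⟨inferInstance, h1⟩
  have h3 : IsGalois F (SeparableClosure E) := inferInstance
  exact ⟨IntermediateField.normalClosure F E (SeparableClosure E), inferInstance, inferInstance,
    IsScalarTower.toAlgHom F E _, IsGalois.normalClosure F E (SeparableClosure E), inferInstance⟩

/-- If a field is generated by fractions of elements of a subring, and the subring is generated by
finitely many separable elements, the field is finite and separable. -/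
theorem fin_sep (F E : Type) [Field F] [Field E] [Algebra F E] (T : Set E) (hT : T.Finite)
    (hs : ∀ x ∈ T, IsSeparable F x) (htop : IntermediateField.adjoin F T = ⊤) :
    FiniteDimensional F E ∧ Algebra.IsSeparable F E := by
  have h1 : FiniteDimensional F (IntermediateField.adjoin F T) := by
    have := hT.to_subtype
    exact IntermediateField.finiteDimensional_adjoin fun x hx => (hs x hx).isIntegral
  have h2 : Algebra.IsSeparable F (IntermediateField.adjoin F T) :=
    (IntermediateField.isSeparable_adjoin_iff_isSeparable F E).2 hs
  rw [htop] at h1 h2
  constructor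
  · exact LinearEquiv.finiteDimensional
      (IntermediateField.topEquiv (F := F) (E := E)).toLinearEquiv
  · exact AlgEquiv.Algebra.isSeparable (IntermediateField.topEquiv (F := F) (E := E))

end Q9g

/-- **(Q9g) The Galois extension.** -/
theorem Q9g_thm : Q9g_Stmt := by
  intro K R A _ _ _ _ _ _ _ φ hφ hft hsep
  have hinj : Function.Injective ((algebraMap A (FractionRing A)).comp φ.toRingHom) :=
    (IsFractionRing.injective A (FractionRing A)).comp hφ
  let _ : Algebra (FractionRing R) (FractionRing A) := (IsFractionRing.lift hinj).toAlgebra
  have hmap : ∀ r, algebraMap (FractionRing R) (FractionRing A) (algebraMap R (FractionRing R) r) =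
      algebraMap A (FractionRing A) (φ r) := fun r => IsFractionRing.lift_algebraMap hinj r
  -- all elements of `A` are separable
  have hA : ∀ a : A, IsSeparable (FractionRing R) (algebraMap A (FractionRing A) a) := by
    intro a
    obtain ⟨P, hP, hPa⟩ := hsep a
    have h0 : aeval (algebraMap A (FractionRing A) a) (P.map (algebraMap R (FractionRing R))) =
        0 := by
      rw [aeval_def, eval₂_map]
      have e1 : (algebraMap (FractionRing R) (FractionRing A)).comp
          (algebraMap R (FractionRing R)) = (algebraMap A (FractionRing A)).comp φ.toRingHom :=
        RingHom.ext hmap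
      rw [e1, ← Polynomial.hom_eval₂, hPa, map_zero]
    exact hP.of_dvd (minpoly.dvd _ _ h0)
  -- the generators
  obtain ⟨S, hS⟩ : ∃ S : Finset A, ∀ a : A, a ∈ (Subring.closure
      (Set.range φ.toRingHom ∪ (S : Set A)) : Subring A) := by
    let _ : Algebra R A := φ.toRingHom.toAlgebra
    have hft' : Algebra.FiniteType R A := hft
    obtain ⟨S, hS⟩ := hft'.out
    refine ⟨S, fun a => ?_⟩
    have ha : a ∈ Algebra.adjoin R (S : Set A) := hS ▸ Algebra.mem_top
    rw [← Subalgebra.mem_toSubring, Algebra.adjoin_eq_ring_closure] at ha
    exact ha
  obtain ⟨h1, h2⟩ := Q9g.fin_sep (FractionRing R) (FractionRing A)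
    (algebraMap A (FractionRing A) '' (S : Set A)) (S.finite_toSet.image _) (by
      rintro _ ⟨a, -, rfl⟩
      exact hA a) (by
      rw [eq_top_iff]
      intro x _
      have hA' : ∀ a : A, algebraMap A (FractionRing A) a ∈
          IntermediateField.adjoin (FractionRing R) (algebraMap A (FractionRing A) '' (S : Set A)) := by
        intro a
        have ha := hS a
        induction ha using Subring.closure_induction with
        | mem b hb =>
          rcases hb with ⟨r, rfl⟩ | hb
          · show algebraMap A (FractionRing A) (φ r) ∈ _
            rw [← hmap]
            exact IntermediateField.algebraMap_mem _ _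
          · exact IntermediateField.subset_adjoin _ _ ⟨b, hb, rfl⟩
        | zero => rw [map_zero]; exact zero_mem _
        | one => rw [map_one]; exact one_mem _
        | add b c _ _ hb hc => rw [map_add]; exact add_mem hb hc
        | neg b _ hb => rw [map_neg]; exact neg_mem hb
        | mul b c _ _ hb hc => rw [map_mul]; exact mul_mem hb hc
      obtain ⟨a, b, _, rfl⟩ := IsFractionRing.div_surjective (A := A) x
      exact div_mem (hA' a) (hA' b))
  obtain ⟨L, hL1, hL2, i, hL3, hL4⟩ := Q9g.exists_galois (FractionRing R) (FractionRing A)
  refine ⟨L, hL1, hL2, i.toRingHom.comp (algebraMap A (FractionRing A)), hL3, hL4,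
    i.toRingHom.injective.comp (IsFractionRing.injective A (FractionRing A)), fun r => ?_⟩
  show i (algebraMap A (FractionRing A) (φ r)) = _
  rw [← hmap, i.commutes]

end Pool.Agent.TD.Q
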