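import Pool.Agent.TD.Q.Stmts

/-! (Q9k) The map `M(B) → M(C)` near the points over `F`. -/

open scoped Topology NNReal
open Polynomial

namespace Pool.Agent.TD.Q.Q9k

section
variable {K R A C B G : Type} [NormedField K] [CommRing R] [CommRing A] [CommRing C] [CommRing B]
  [Algebra K R] [Algebra K A] [Algebra K C] [Algebra K B] [Group G]
  {φ : R →ₐ[K] A} {i : R →ₐ[K] C} {α : A →ₐ[K] B} {γ : C →ₐ[K] B} {ρ : G →* (C ≃ₐ[K] C)}
  {H : Subgroup G} {σ : H →* (B ≃ₐ[K] B)}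

/-- `B[1/g] = C[1/g]`. -/
theorem claim (d : DegData φ i α γ ρ H σ) {g : A} {g' : C} (hg' : γ g' = α g)
    (hg : ∀ x : A, ∃ m : ℕ, φ.toRingHom.IsIntegralElem (g ^ m * x)) (x : B) :
    ∃ (m : ℕ) (c : C), γ g' ^ m * x = γ c := by
  have hx : x ∈ Algebra.adjoin K (Set.range α ∪ Set.range γ) := by
    rw [d.gen]
    exact Algebra.mem_top
  induction hx using Algebra.adjoin_induction with
  | mem x hx =>
    rcases hx with ⟨a, rfl⟩ | ⟨c, rfl⟩
    · obtain ⟨m, hm⟩ := hg a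
      obtain ⟨c, hc⟩ := d.elt _ hm
      refine ⟨m, c, ?_⟩
      rw [hc, map_mul, map_pow, hg']
    · exact ⟨0, c, by rw [pow_zero, one_mul]⟩
  | algebraMap r => exact ⟨0, algebraMap K C r, by rw [pow_zero, one_mul, AlgHom.commutes]⟩
  | add x y _ _ hx hy =>
    obtain ⟨m, c, hc⟩ := hx
    obtain ⟨n, c', hc'⟩ := hy
    refine ⟨m + n, g' ^ n * c + g' ^ m * c', ?_⟩
    rw [map_add, map_mul, map_mul, map_pow, map_pow, ← hc, ← hc', pow_add]
    ring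
  | mul x y _ _ hx hy =>
    obtain ⟨m, c, hc⟩ := hx
    obtain ⟨n, c', hc'⟩ := hy
    refine ⟨m + n, c * c', ?_⟩
    rw [map_mul, ← hc, ← hc', pow_add]
    ring

theorem inv (d : DegData φ i α γ ρ H σ) {c : C} {a : A} (h : γ c = α a) (t : H) :
    ρ t c = c := by
  apply d.injc
  rw [← d.actc, h, d.acta]

end

end Pool.Agent.TD.Q.Q9k

namespace Pool.Agent.TD.Q

theorem Q9k_thm (h7 : Q7a_Stmt) : Q9k_Stmt := by
  intro K R A C B G _ _ _ _ _ _ _ _ _ _ φ i α γ ρ H σ d b hz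
  obtain ⟨g, hg0, hgi, hg⟩ := hz
  obtain ⟨g', hg'⟩ := d.elt g hgi
  have hb : b.v (γ g') ≠ 0 := by
    rw [hg']
    exact hg0
  obtain ⟨-, h2, h3⟩ := h7 K C B γ g' d.injc (Q9k.claim d hg' hg)
  refine ⟨fun b' => h2 b b' hb, fun V hV => h3 b hb V hV, ?_⟩
  intro a
  obtain ⟨m, hm⟩ := hg a
  obtain ⟨c, hc⟩ := d.elt _ hm
  refine ⟨c, g' ^ m, fun t => Q9k.inv d hc t, fun t => ?_, ?_, ?_⟩
  · refine Q9k.inv d (a := g ^ m) ?_ t
    rw [map_pow, map_pow, hg']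
  · rw [Ber.res_v, map_pow, Ber.pow]
    exact pow_ne_zero _ hb
  · rw [hc, map_mul, map_pow, map_pow, hg']

end Pool.Agent.TD.Q
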