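import Pool.Agent.TD.Q.Stmts

/-!
# (Q9w): the set `W` is compact, open over `Z` and stable under `H`
-/

open scoped Topology NNReal
open Polynomial

namespace Pool.Agent.TD.Q

theorem Q9w_thm (h9 : Q9k_Stmt) : Q9w_Stmt := by
  intro K R A C B G _ _ _ _ _ _ _ _ _ _ _ φ i α γ ρ H σ hd Z F hF
  have hcα : Continuous (Ber.res α : Ber K B → Ber K A) := Ber.res_continuous α
  have hcγ : Continuous (Ber.res γ : Ber K B → Ber K C) := Ber.res_continuous γ
  have hWW : WW α γ F = Ber.res γ '' (Ber.res α ⁻¹' F) := rfl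
  have hcomm : ∀ b : Ber K B, Ber.res i (Ber.res γ b) = Ber.res φ (Ber.res α b) := by
    intro b
    apply Ber.ext_v
    intro r
    rw [Ber.res_v, Ber.res_v, Ber.res_v, Ber.res_v, hd.comm]
  refine ⟨?_, ?_, ?_, ?_⟩
  · rw [hWW]
    exact ((int_proper α hd.int).isCompact_preimage hF.comp).image hcγ
  · rintro w ⟨b, hb, rfl⟩
    rw [hcomm]
    exact hF.maps _ hb
  · rintro w ⟨b, hb, rfl⟩
    have h1 : ∀ᶠ b' in 𝓝 b, Ber.res φ (Ber.res α b') ∈ Z → Ber.res α b' ∈ F :=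
      hcα.continuousAt.eventually (hF.opn _ hb)
    have h2 := (h9 K R A C B G φ i α γ ρ H σ hd b (hF.zmp _ hb)).2.1 _ h1
    filter_upwards [h2] with w' hw' hZ
    obtain ⟨b', hb', rfl⟩ := hw'
    rw [hcomm] at hZ
    exact ⟨b', hb' hZ, rfl⟩
  · rintro w ⟨b, hb, rfl⟩ h hh
    refine ⟨act σ ⟨h, hh⟩ b, ?_, ?_⟩
    · have h3 : Ber.res α (act σ ⟨h, hh⟩ b) = Ber.res α b := by
        apply Ber.ext_v
        intro a
        rw [Ber.res_v, act_v, hd.acta, Ber.res_v]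
      rw [h3]
      exact hb
    · apply Ber.ext_v
      intro c
      rw [Ber.res_v, act_v, hd.actc, act_v, Ber.res_v]

end Pool.Agent.TD.Q
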