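import Pool.Agent.TD.Q.Stmts

/-! Section Q of PAPER2.md: embeddings (module TD_Q_QE). -/

open scoped Topology NNReal

namespace Pool.Agent.TD.Q

namespace QE

theorem v_smul {κ B : Type} [NormedField κ] [CommRing B] [Algebra κ B] (w : Ber κ B) (s : κ)
    (b : B) : w.v (s • b) = ‖s‖ * w.v b := by
  rw [Algebra.smul_def, w.mul, w.ext]

end QE

theorem QE_thm : QE_Stmt := by
  intro K κ A B _ _ _ _ _ _ j hj hs
  have key : ∀ b : B, ∃ (c : ℝ) (a : A), ∀ w : Ber κ B, w.v b = c * (Ber.comap j hj w).v a := by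
    intro b
    obtain ⟨s, a, rfl⟩ := hs b
    exact ⟨‖s‖, a, fun w => QE.v_smul w s _⟩
  have hinj : Function.Injective (Ber.comap j hj : Ber κ B → Ber K A) := by
    intro w w' h
    apply Ber.ext_v
    intro b
    obtain ⟨c, a, hb⟩ := key b
    rw [hb w, hb w', h]
  refine ⟨⟨le_antisymm (Ber.comap_continuous j hj).le_induced ?_⟩, hinj⟩
  have h1 : @Continuous (Ber κ B) (B → ℝ)
      (TopologicalSpace.induced (Ber.comap j hj : Ber κ B → Ber K A) inferInstance) _ Ber.v := by
    refine @continuous_pi _ _ _ (_) _ _ fun b => ?_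
    obtain ⟨c, a, hb⟩ := key b
    have h2 : (fun w : Ber κ B => w.v b) = fun w => c * (Ber.comap j hj w).v a := funext hb
    rw [h2]
    have h3 : Continuous fun z : Ber K A => c * z.v a :=
      continuous_const.mul (Ber.continuous_v a)
    exact @Continuous.comp (Ber κ B) (Ber K A) ℝ (_) _ _ (Ber.comap j hj)
      (fun z => c * z.v a) h3 continuous_induced_dom
  exact continuous_iff_le_induced.mp h1

end Pool.Agent.TD.Q
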