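import Pool.Agent.TD.Q.Stmts

/-!
# (QF): finite homomorphisms have finite fibres on Berkovich spectra
-/

open scoped Topology NNReal
open Polynomial

namespace Pool.Agent.TD.Q

theorem QF_thm (h0 : Q0_Stmt) (hU : QU_Stmt) : QF_Stmt := by
  intro K R C _ _ _ _ _ φ hφ y
  obtain ⟨H, B, _, _, _, _, _, ι, j, -, -, -, -, hfin, hlift⟩ := h0 K R C φ y
  have hB : Module.Finite H B := hfin hφ
  have hI : Algebra.IsIntegral H B := Algebra.IsIntegral.of_finite H B
  have hA : IsArtinianRing B := IsArtinianRing.of_finite H B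
  have hk := (hU H B).2
  choose w hw using hlift
  have hP : Finite (PrimeSpectrum B) := inferInstance
  have hf : Function.Injective (fun z : {z : Ber K C // Ber.res φ z = y} =>
      (⟨(w z.1 z.2).ker, inferInstance⟩ : PrimeSpectrum B)) := by
    rintro ⟨z, hz⟩ ⟨z', hz'⟩ h
    have h1 : (w z hz).ker = (w z' hz').ker := congrArg PrimeSpectrum.asIdeal h
    have h2 : w z hz = w z' hz' := hk _ _ h1
    apply Subtype.ext
    apply Ber.ext_v
    intro c
    rw [← hw z hz c, ← hw z' hz' c, h2]
  exact Set.finite_coe_iff.1 (Finite.of_injective _ hf)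
end Pool.Agent.TD.Q
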