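import Pool.Agent.TD.Q.Stmts

/-!
# (QS) closed embeddings (MP_90358a_ag, PAPER2.md, section Q; module TD_Q_QS)
-/

open scoped Topology NNReal

namespace Pool.Agent.TD.Q

namespace QS

section
variable {K A B : Type} [NormedField K] [CommRing A] [CommRing B] [Algebra K A] [Algebra K B]

/-- Two elements which differ by an element of the kernel have the same absolute value. -/
theorem v_eq {z : Ber K A} {a b : A} (h : z.v (a - b) = 0) : z.v a = z.v b := by
  have h1 : ∀ a b : A, z.v (a - b) = 0 → z.v a ≤ z.v b := by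
    intro a b h
    calc z.v a = z.v ((a - b) + b) := by rw [sub_add_cancel]
      _ ≤ max (z.v (a - b)) (z.v b) := z.add _ _
      _ ≤ z.v b := by rw [h]; exact max_le (z.nonneg _) le_rfl
  exact le_antisymm (h1 a b h) (h1 b a (by rw [z.sub_comm, h]))

theorem range_eq (φ : A →ₐ[K] B) (hφ : Function.Surjective φ) :
    Set.range (Ber.res φ : Ber K B → Ber K A) = {z | ∀ a, φ a = 0 → z.v a = 0} := by
  ext z
  constructor
  · rintro ⟨w, rfl⟩ a ha
    rw [Ber.res_v, ha]
    exact w.zero
  · intro hz
    choose s hs using hφ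
    have key : ∀ a a' : A, φ a = φ a' → z.v a = z.v a' := fun a a' h =>
      v_eq (hz (a - a') (by rw [map_sub, h, sub_self]))
    refine ⟨{ v := fun b => z.v (s b)
              nonneg := fun b => z.nonneg _
              one := ?_
              mul := ?_
              add := ?_
              ext := ?_ }, ?_⟩
    · rw [key (s 1) 1 (by rw [hs, map_one]), z.one]
    · intro a b
      rw [← z.mul]
      exact key _ _ (by rw [hs, map_mul, hs, hs])
    · intro a b
      refine le_trans (le_of_eq ?_) (z.add (s a) (s b))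
      exact key _ _ (by rw [hs, map_add, hs, hs])
    · intro c
      rw [← z.ext c]
      exact key _ _ (by rw [hs, φ.commutes])
    · apply Ber.ext_v
      intro a
      rw [Ber.res_v]
      exact key _ _ (by rw [hs])

theorem closed_range (φ : A →ₐ[K] B) :
    IsClosed {z : Ber K A | ∀ a, φ a = 0 → z.v a = 0} := by
  have : {z : Ber K A | ∀ a, φ a = 0 → z.v a = 0} =
      ⋂ a : {a : A // φ a = 0}, {z : Ber K A | z.v a.1 = 0} := by
    ext z
    constructor
    · intro h
      exact Set.mem_iInter.2 fun a => h a.1 a.2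
    · intro h a ha
      exact Set.mem_iInter.1 h ⟨a, ha⟩
  rw [this]
  exact isClosed_iInter fun a => isClosed_eq (Ber.continuous_v _) continuous_const

end

end QS

/-- (QS) -/
theorem QS_thm (hE : QE_Stmt) : QS_Stmt := by
  intro K A B _ _ _ _ _ φ hφ
  have h1 : Topology.IsEmbedding (Ber.res φ : Ber K B → Ber K A) := by
    refine hE K K A B φ.toRingHom _ fun b => ?_
    obtain ⟨a, ha⟩ := hφ b
    exact ⟨1, a, by rw [one_smul]; exact ha.symm⟩
  have h2 := QS.range_eq φ hφ
  refine ⟨⟨h1, ?_⟩, h2⟩
  rw [h2]
  exact QS.closed_range φ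

end Pool.Agent.TD.Q
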