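import Pool.Agent.TD.Q.Stmts
import Pool.Agent.TD.T.Ext

/-!
# (QU) Points of the spectrum of an integral algebra over a complete field (MP_90358a_ag)

A point of `M_H(B)`, `B` integral over the complete field `H`, is determined by its kernel, which is
a maximal ideal.
-/

open scoped Topology

namespace Pool.Agent.TD.Q

namespace QU

variable {H B : Type} [NormedField H] [CommRing B] [Algebra H B]

/-- If `|a - b| = 0` then `|a| = |b|`. -/
theorem v_congr (w : Ber H B) {a b : B} (h : a - b ∈ w.ker) : w.v a = w.v b := by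
  have h0 : w.v (a - b) = 0 := h
  have h0' : w.v (b - a) = 0 := by
    have h1 : b - a ∈ w.ker := by
      rw [← neg_sub]
      exact w.ker.neg_mem h
    exact h1
  apply le_antisymm
  · have h1 := w.add b (a - b)
    rw [add_sub_cancel, h0, max_eq_left (w.nonneg b)] at h1
    exact h1
  · have h1 := w.add a (b - a)
    rw [add_sub_cancel, h0', max_eq_left (w.nonneg a)] at h1
    exact h1

/-- A representative. -/
noncomputable def rep (I : Ideal B) (x : B ⧸ I) : B :=
  Function.surjInv (Ideal.Quotient.mk_surjective (I := I)) x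

theorem mk_rep (I : Ideal B) (x : B ⧸ I) : Ideal.Quotient.mk I (rep I x) = x :=
  Function.surjInv_eq (Ideal.Quotient.mk_surjective (I := I)) x

theorem v_mk_congr (w : Ber H B) (I : Ideal B) (hI : w.ker = I) {a b : B}
    (h : Ideal.Quotient.mk I a = Ideal.Quotient.mk I b) : w.v a = w.v b := by
  subst hI
  exact v_congr w (Ideal.Quotient.eq.mp h)

/-- The point of the spectrum of `B / I` given by a point with kernel `I`. -/
noncomputable def desc (w : Ber H B) (I : Ideal B) (hI : w.ker = I) : Ber H (B ⧸ I) where
  v x := w.v (rep I x)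
  nonneg x := w.nonneg _
  one := by
    rw [← w.one]
    refine v_mk_congr w I hI ?_
    rw [mk_rep, map_one]
  mul x y := by
    rw [← w.mul]
    refine v_mk_congr w I hI ?_
    rw [mk_rep, map_mul, mk_rep, mk_rep]
  add x y := by
    have h1 := w.add (rep I x) (rep I y)
    refine le_trans (le_of_eq (v_mk_congr w I hI ?_)) h1
    rw [mk_rep, map_add, mk_rep, mk_rep]
  ext c := by
    rw [← w.ext c]
    refine v_mk_congr w I hI ?_
    rw [mk_rep]
    rfl

theorem desc_mk (w : Ber H B) (I : Ideal B) (hI : w.ker = I) (b : B) :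
    (desc w I hI).v (Ideal.Quotient.mk I b) = w.v b := by
  refine v_mk_congr w I hI ?_
  rw [mk_rep]

/-- The kernel of a point is maximal. -/
theorem ker_isMaximal [Algebra.IsIntegral H B] (w : Ber H B) : w.ker.IsMaximal := by
  have h0 : Ideal.comap (algebraMap H B) w.ker = ⊥ := by
    rw [eq_bot_iff]
    intro c hc
    have h1 : w.v (algebraMap H B c) = 0 := hc
    rw [w.ext] at h1
    simpa using h1
  apply Ideal.isMaximal_of_isIntegral_of_isMaximal_comap (R := H) w.ker
  rw [h0]
  exact Ideal.bot_isMaximal

end QU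

open QU in
/-- (QU) points of `M_H(B)`, `B` integral over the complete field `H`, are determined by their
kernels, which are maximal ideals. -/
theorem QU_thm : QU_Stmt := by
  intro H B _ _ _ _ _ _
  refine ⟨fun w => ker_isMaximal w, ?_⟩
  intro w w' hw
  have hmax : w'.ker.IsMaximal := ker_isMaximal w'
  letI : Field (B ⧸ w'.ker) := Ideal.Quotient.field w'.ker
  haveI : Algebra.IsAlgebraic H (B ⧸ w'.ker) := inferInstance
  obtain ⟨N, hN⟩ := td_ext H (B ⧸ w'.ker)
  have h1 : desc w w'.ker hw = desc w' w'.ker rfl := by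
    rw [hN (desc w w'.ker hw), hN (desc w' w'.ker rfl)]
  apply Ber.ext_v
  intro b
  have h2 := congrArg (fun n : Ber H (B ⧸ w'.ker) => n.v (Ideal.Quotient.mk w'.ker b)) h1
  simp only [desc_mk] at h2
  exact h2

end Pool.Agent.TD.Q
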