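import Pool.Agent.TD.Q.Q0
import Pool.Agent.TD.Q.QU
import Pool.Agent.TD.Q.Q1
import Pool.Agent.TD.Q.QF
import Pool.Agent.TD.Q.Q2
import Pool.Agent.TD.Q.Q2o
import Pool.Agent.TD.Q.Q3c
import Pool.Agent.TD.Q.Q3b
import Pool.Agent.TD.Q.Q3a
import Pool.Agent.TD.Q.Q3
import Pool.Agent.TD.Q.Q4
import Pool.Agent.TD.Q.QE
import Pool.Agent.TD.Q.QS
import Pool.Agent.TD.Q.Q5a
import Pool.Agent.TD.Q.Q5
import Pool.Agent.TD.Q.Q6a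
import Pool.Agent.TD.Q.Q6
import Pool.Agent.TD.Q.Q7a
import Pool.Agent.TD.Q.Q7
import Pool.Agent.TD.Q.Q8
import Pool.Agent.TD.Q.Q9g
import Pool.Agent.TD.Q.Q9b
import Pool.Agent.TD.Q.Q9k
import Pool.Agent.TD.Q.Q9w
import Pool.Agent.TD.Q.Q9d
import Pool.Agent.TD.Q.Q9e
import Pool.Agent.TD.Q.Q9f
import Pool.Agent.TD.Q.Q9

/-!
# Section Q: the theorems without hypotheses
-/

namespace Pool.Agent.TD.Q

theorem q0 : Q0_Stmt := Q0_thm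
theorem qu : QU_Stmt := QU_thm
theorem q1 : Q1_Stmt := Q1_thm q0 qu
theorem qf : QF_Stmt := QF_thm q0 qu
theorem q2 : Q2_Stmt := Q2_thm q1
theorem q2o : Q2o_Stmt := Q2o_thm q2
theorem q3b : Q3b_Stmt := Q3b_thm Q3c_thm
theorem q3a : Q3a_Stmt := Q3a_thm q1 qf q3b
theorem q3 : Q3_Stmt := Q3_thm q3a
theorem q4 : Q4_Stmt := Q4_thm
theorem qe : QE_Stmt := QE_thm
theorem qs : QS_Stmt := QS_thm qe
theorem q5a : Q5a_Stmt := Q5a_thm q3 q4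
theorem q5 : Q5_Stmt := Q5_thm q5a qs
theorem q6a : Q6a_Stmt := Q6a_thm qe
theorem q6 : Q6_Stmt := Q6_thm q5 q6a
theorem q7a : Q7a_Stmt := Q7a_thm
theorem q7 : Q7_Stmt := Q7_thm q3 q7a
theorem q8 : Q8_Stmt := Q8_thm q1 q2
theorem q9b : Q9b_Stmt := Q9b_thm Q9g_thm
theorem q9k : Q9k_Stmt := Q9k_thm q7a
theorem q9w : Q9w_Stmt := Q9w_thm q9k
theorem q9d : Q9d_Stmt := Q9d_thm q2 q2o
theorem q9e : Q9e_Stmt := Q9e_thm q2 q2o q9k q9w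
theorem q9f : Q9f_Stmt := Q9f_thm q2 q8 q9k q9w q9d q9e
theorem q9 : Q9_Stmt := Q9_thm q9b q9f

end Pool.Agent.TD.Q
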