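import Pool.Agent.TD.N.Defs
import Pool.Agent.TD.BG.INT
import Pool.Agent.TD.BG.M3
import Pool.Agent.TD.BG.TOP

/-!
# Section Q of PAPER2.md (MP_90358a_ag): basic facts

Finite group actions on Berkovich spectra, rings of invariants, integral homomorphisms.
-/

open scoped Topology NNReal

namespace Pool.Agent.TD.Q

section
variable {K R C G : Type} [NormedField K] [CommRing R] [CommRing C] [Algebra K R] [Algebra K C]
  [Group G]

/-- `R` (with `i : R → C`) is the ring of invariants of the group `G` acting on `C` through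
`ρ`. -/
structure IsInv (i : R →ₐ[K] C) (ρ : G →* (C ≃ₐ[K] C)) : Prop where
  inj : Function.Injective i
  fix : ∀ g r, ρ g (i r) = i r
  inv : ∀ c, (∀ g, ρ g c = c) → ∃ r, i r = c

/-- The action of `G` on the points: `|c|_{act ρ g z} = |g c|_z`. -/
def act (ρ : G →* (C ≃ₐ[K] C)) (g : G) (z : Ber K C) : Ber K C :=
  Ber.res (ρ g).toAlgHom z

@[simp] theorem act_v (ρ : G →* (C ≃ₐ[K] C)) (g : G) (z : Ber K C) (c : C) :
    (act ρ g z).v c = z.v (ρ g c) := rfl

theorem act_one (ρ : G →* (C ≃ₐ[K] C)) (z : Ber K C) : act ρ 1 z = z := by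
  apply Ber.ext_v
  intro c
  rw [act_v, map_one]
  rfl

theorem act_mul (ρ : G →* (C ≃ₐ[K] C)) (g h : G) (z : Ber K C) :
    act ρ (g * h) z = act ρ h (act ρ g z) := by
  apply Ber.ext_v
  intro c
  rw [act_v, act_v, act_v, map_mul]
  rfl

theorem act_inv_act (ρ : G →* (C ≃ₐ[K] C)) (g : G) (z : Ber K C) :
    act ρ g⁻¹ (act ρ g z) = z := by
  rw [← act_mul, mul_inv_cancel, act_one]

theorem act_act_inv (ρ : G →* (C ≃ₐ[K] C)) (g : G) (z : Ber K C) :
    act ρ g (act ρ g⁻¹ z) = z := by
  rw [← act_mul, inv_mul_cancel, act_one]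

theorem act_continuous (ρ : G →* (C ≃ₐ[K] C)) (g : G) : Continuous (act ρ g) :=
  Ber.res_continuous _

/-- The action as homeomorphisms. -/
def actHomeo (ρ : G →* (C ≃ₐ[K] C)) (g : G) : Ber K C ≃ₜ Ber K C where
  toFun := act ρ g
  invFun := act ρ g⁻¹
  left_inv := act_inv_act ρ g
  right_inv := act_act_inv ρ g
  continuous_toFun := act_continuous ρ g
  continuous_invFun := act_continuous ρ g⁻¹

@[simp] theorem actHomeo_apply (ρ : G →* (C ≃ₐ[K] C)) (g : G) (z : Ber K C) :
    actHomeo ρ g z = act ρ g z := rfl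

theorem IsInv.res_act {i : R →ₐ[K] C} {ρ : G →* (C ≃ₐ[K] C)} (h : IsInv i ρ) (g : G)
    (z : Ber K C) : Ber.res i (act ρ g z) = Ber.res i z := by
  apply Ber.ext_v
  intro r
  rw [Ber.res_v, Ber.res_v, act_v, h.fix]

/-- The ring of invariants. -/
def inva (ρ : G →* (C ≃ₐ[K] C)) : Subalgebra K C where
  carrier := {c | ∀ g, ρ g c = c}
  mul_mem' := by
    intro a b ha hb g
    rw [map_mul, ha g, hb g]
  one_mem' := fun g => map_one _
  add_mem' := by
    intro a b ha hb g
    rw [map_add, ha g, hb g]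
  zero_mem' := fun g => map_zero _
  algebraMap_mem' := fun c g => (ρ g).commutes c

theorem mem_inva (ρ : G →* (C ≃ₐ[K] C)) (c : C) : c ∈ inva ρ ↔ ∀ g, ρ g c = c := Iff.rfl

theorem isInv_inva (ρ : G →* (C ≃ₐ[K] C)) : IsInv (inva ρ).val ρ where
  inj := Subtype.val_injective
  fix := fun g r => r.2 g
  inv := fun c hc => ⟨⟨c, hc⟩, rfl⟩

/-- `C` is integral over the ring of invariants of a finite group. -/
theorem IsInv.isIntegral [Finite G] {i : R →ₐ[K] C} {ρ : G →* (C ≃ₐ[K] C)} (h : IsInv i ρ) :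
    i.toRingHom.IsIntegral := by
  classical
  have := Fintype.ofFinite G
  intro c
  rcases subsingleton_or_nontrivial C with hC | hC
  · exact ⟨1, Polynomial.monic_one, Subsingleton.elim _ _⟩
  -- the polynomial `∏ (X - g c)` has invariant coefficients
  let P : Polynomial C := ∏ g : G, (Polynomial.X - Polynomial.C (ρ g c))
  have hP : P.Monic := Polynomial.monic_prod_of_monic _ _ fun g _ => Polynomial.monic_X_sub_C _
  have hinv : ∀ g : G, P.map (ρ g : C →+* C) = P := by
    intro g
    show Polynomial.map _ (∏ h : G, (Polynomial.X - Polynomial.C (ρ h c))) = _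
    rw [Polynomial.map_prod]
    simp only [Polynomial.map_sub, Polynomial.map_X, Polynomial.map_C]
    refine Fintype.prod_equiv (Equiv.mulLeft g) _ _ fun h => ?_
    congr 2
    rw [Equiv.coe_mulLeft, map_mul]
    rfl
  have hcoef : ∀ n, ∃ r, i r = P.coeff n := by
    intro n
    apply h.inv
    intro g
    have := congrArg (fun Q => Polynomial.coeff Q n) (hinv g)
    rw [Polynomial.coeff_map] at this
    exact this
  have hlift : P ∈ Polynomial.lifts i.toRingHom := by
    rw [Polynomial.lifts_iff_coeff_lifts]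
    intro n
    obtain ⟨r, hr⟩ := hcoef n
    exact ⟨r, hr⟩
  obtain ⟨Q, hQ, -, hQm⟩ := Polynomial.lifts_and_degree_eq_and_monic hlift hP
  refine ⟨Q, hQm, ?_⟩
  rw [← Polynomial.eval_map, hQ]
  show Polynomial.eval c (∏ g : G, (Polynomial.X - Polynomial.C (ρ g c))) = 0
  rw [Polynomial.eval_prod]
  refine Finset.prod_eq_zero (Finset.mem_univ (1 : G)) ?_
  rw [map_one]
  simp

end

section
variable {K R C : Type} [NormedField K] [IsUltrametricDist K] [CommRing R] [CommRing C]
  [Algebra K R] [Algebra K C]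

/-- (INT) `M(C) → M(R)` is surjective for an injective integral homomorphism. -/
theorem int_surj (φ : R →ₐ[K] C) (hφ : Function.Injective φ) (hi : φ.toRingHom.IsIntegral) :
    Function.Surjective (Ber.res φ : Ber K C → Ber K R) :=
  (BG.INT_thm BG.M3_thm BG.TOP_thm K R C φ hφ hi).2.1

omit [IsUltrametricDist K] in
/-- (INT) `M(C) → M(R)` is proper for an integral homomorphism. -/
theorem int_proper (φ : R →ₐ[K] C) (hi : φ.toRingHom.IsIntegral) :
    IsProperMap (Ber.res φ : Ber K C → Ber K R) :=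
  BG.INT.proper BG.TOP_thm φ hi

omit [IsUltrametricDist K] in
theorem int_closed (φ : R →ₐ[K] C) (hi : φ.toRingHom.IsIntegral) :
    IsClosedMap (Ber.res φ : Ber K C → Ber K R) :=
  (int_proper φ hi).isClosedMap

end

end Pool.Agent.TD.Q
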