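import Pool.Agent.TD.Q.Stmts
import Pool.Agent.TD.T.Res
import Pool.Agent.TD.E.Exti

/-!
# Section Q, (Q0): the fibre over `y` is the spectrum of `H ⊗_R C` (MP_90358a_ag)
-/

open scoped Topology NNReal TensorProduct
open Polynomial

namespace Pool.Agent.TD.Q

theorem Q0_thm : Q0_Stmt := by
  intro K R C _ _ _ _ _ φ y
  obtain ⟨H, iN, iU, iC, ι, hι⟩ := td_res K R y
  let aC : Algebra R C := φ.toRingHom.toAlgebra
  let aH : Algebra R H := ι.toAlgebra
  have hspan : Submodule.span H (Set.range
      ((Algebra.TensorProduct.includeRight : C →ₐ[R] H ⊗[R] C).toRingHom)) = ⊤ := by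
    rw [eq_top_iff]
    rintro x -
    induction x using TensorProduct.induction_on with
    | zero => exact Submodule.zero_mem _
    | tmul h c =>
      have e : h ⊗ₜ[R] c = h • ((1 : H) ⊗ₜ[R] c) := by
        rw [TensorProduct.smul_tmul', smul_eq_mul, mul_one]
      rw [e]
      exact Submodule.smul_mem _ _ (Submodule.subset_span ⟨c, rfl⟩)
    | add a b ha hb => exact Submodule.add_mem _ ha hb
  refine ⟨H, H ⊗[R] C, iN, iU, iC, inferInstance, Algebra.TensorProduct.leftAlgebra, ι,
    (Algebra.TensorProduct.includeRight : C →ₐ[R] H ⊗[R] C).toRingHom, hι, ?_, hspan, ?_, ?_, ?_⟩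
  · intro r
    have h1 : (Algebra.TensorProduct.includeRight : C →ₐ[R] H ⊗[R] C) (algebraMap R C r) =
        algebraMap R (H ⊗[R] C) r := AlgHom.commutes _ r
    have h2 : algebraMap R (H ⊗[R] C) r = algebraMap H (H ⊗[R] C) (algebraMap R H r) := by
      rw [Algebra.TensorProduct.algebraMap_apply, Algebra.TensorProduct.algebraMap_apply]
      rfl
    exact h1.trans h2
  · intro hi
    refine ⟨fun x => ?_⟩
    induction x using TensorProduct.induction_on with
    | zero => exact isIntegral_zero
    | tmul h c => exact IsIntegral.tmul h (hi c)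
    | add a b ha hb => exact ha.add hb
  · intro hf
    have : Module.Finite R C := hf
    exact Module.Finite.base_change R H C
  · intro z hz
    obtain ⟨H', iN', iU', iC', ι', hι'⟩ := td_res K C z
    have hn : ∀ a, ‖(ι'.comp φ.toRingHom) a‖ = ‖ι a‖ := by
      intro a
      rw [hι.norm, ← hz, Ber.res_v, RingHom.comp_apply, hι'.norm]
      rfl
    obtain ⟨τ, hτn, hτ⟩ := exists_ext_completion ι (ι'.comp φ.toRingHom) hn hι.dense
    let aH' : Algebra R H' := (ι'.comp φ.toRingHom).toAlgebra
    let τa : H →ₐ[R] H' := { τ with commutes' := fun r => hτ r }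
    let ιa : C →ₐ[R] H' := { ι' with commutes' := fun r => rfl }
    let F : H ⊗[R] C →ₐ[R] H' := Algebra.TensorProduct.productMap τa ιa
    have hF1 : ∀ h : H, F (algebraMap H (H ⊗[R] C) h) = τ h := by
      intro h
      have h1 : algebraMap H (H ⊗[R] C) h = h ⊗ₜ[R] (1 : C) := by
        rw [Algebra.TensorProduct.algebraMap_apply]
        rfl
      rw [h1, Algebra.TensorProduct.productMap_apply_tmul, map_one, mul_one]
      rfl
    have hF2 : ∀ c : C, F ((1 : H) ⊗ₜ[R] c) = ι' c := by
      intro c
      rw [Algebra.TensorProduct.productMap_apply_tmul, map_one, one_mul]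
      rfl
    refine ⟨{ v := fun b => ‖F b‖
              nonneg := fun b => norm_nonneg _
              one := by rw [map_one, norm_one]
              mul := fun a b => by rw [map_mul, norm_mul]
              add := fun a b => by rw [map_add]; exact IsUltrametricDist.norm_add_le_max _ _
              ext := fun c => by rw [hF1, hτn] }, fun c => ?_⟩
    show ‖F ((1 : H) ⊗ₜ[R] c)‖ = z.v c
    rw [hF2, hι'.norm]

end Pool.Agent.TD.Q
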