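import Pool.Agent.TD.Q.Stmts
import Pool.Agent.TD.T.Res
import Pool.Agent.TD.E.Exti

/-!
# Q6a: the fibre of `M(A) → M(R)` over `y` is the spectrum of `κ ⊗_R A` (MP_90358a_ag)
-/

open scoped Topology

namespace Pool.Agent.TD.Q

namespace Q6a

variable {K R A κ B : Type} [NormedField K] [CommRing R] [CommRing A]
    [Algebra K R] [Algebra K A] [NormedField κ] [CommRing B] [Algebra κ B] (φ : R →ₐ[K] A)
    (y : Ber K R) (ι : R →+* κ) (j : A →+* B)

include y in
theorem hj_aux (h1 : ∀ r, ‖ι r‖ = y.v r) (h3 : ∀ r, j (φ r) = algebraMap κ B (ι r))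
    (w : Ber κ B) (c : K) : w.v (j (algebraMap K A c)) = ‖c‖ := by
  rw [← φ.commutes c, h3, w.ext, h1, y.ext]

/-- Elements of `B` are multiples of elements of `A`. -/
theorem smul_form (h2 : ∀ x : κ, ∃ a b : R, ι b ≠ 0 ∧ x * ι b = ι a)
    (h3 : ∀ r, j (φ r) = algebraMap κ B (ι r)) (h4 : Submodule.span κ (Set.range j) = ⊤)
    (b : B) : ∃ (q : R) (a : A), ι q ≠ 0 ∧ b = (ι q)⁻¹ • j a := by
  have hb : b ∈ Submodule.span κ (Set.range j) := by
    rw [h4]
    exact Submodule.mem_top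
  induction hb using Submodule.span_induction with
  | mem x hx =>
    obtain ⟨a, rfl⟩ := hx
    refine ⟨1, a, by rw [map_one]; exact one_ne_zero, ?_⟩
    rw [map_one, inv_one, one_smul]
  | zero =>
    refine ⟨1, 0, by rw [map_one]; exact one_ne_zero, ?_⟩
    rw [map_zero, smul_zero]
  | add x z _ _ hx hz =>
    obtain ⟨q, a, hq, rfl⟩ := hx
    obtain ⟨q', a', hq', rfl⟩ := hz
    refine ⟨q * q', φ q' * a + φ q * a', by rw [map_mul]; exact mul_ne_zero hq hq', ?_⟩
    rw [map_add, map_mul j, map_mul j, h3, h3, smul_add, ← Algebra.smul_def, ← Algebra.smul_def,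
      smul_smul, smul_smul, map_mul]
    congr 2
    · field_simp
    · field_simp
  | smul x z _ hz =>
    obtain ⟨q, a, hq, rfl⟩ := hz
    obtain ⟨p, s, hs, hx⟩ := h2 x
    refine ⟨s * q, φ p * a, by rw [map_mul]; exact mul_ne_zero hs hq, ?_⟩
    have hx' : x = ι p / ι s := by rw [eq_div_iff hs, hx]
    rw [map_mul j, h3, ← Algebra.smul_def, smul_smul, smul_smul, map_mul, hx']
    congr 1
    field_simp

end Q6a

open Q6a in
/-- (Q6a) the fibre over `y` is the spectrum of the algebra `B = κ ⊗_R A`. -/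
theorem Q6a_thm (hE : QE_Stmt) : Q6a_Stmt := by
  intro K R A κ B _ _ _ _ _ _ _ _ φ y ι j h1 h2 h3 h4 h5
  have hj : ∀ (w : Ber κ B) (c : K), w.v (j (algebraMap K A c)) = ‖c‖ :=
    hj_aux φ y ι j h1 h3
  have hemb : Topology.IsEmbedding (Ber.comap j hj : Ber κ B → Ber K A) := by
    refine hE K κ A B j hj ?_
    intro b
    obtain ⟨q, a, _, hb⟩ := smul_form φ ι j h2 h3 h4 b
    exact ⟨_, a, hb⟩
  have hrange : Set.range (Ber.comap j hj : Ber κ B → Ber K A) = {z | Ber.res φ z = y} := by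
    ext z
    constructor
    · rintro ⟨w, rfl⟩
      apply Ber.ext_v
      intro r
      rw [Ber.res_v, Ber.comap_v, h3, w.ext, h1]
    · intro hz
      obtain ⟨H, _, _, _, ι', hι'⟩ := td_res K A z
      have hn : ∀ r, ‖(ι'.comp φ.toRingHom) r‖ = ‖ι r‖ := by
        intro r
        have e1 : ‖ι' (φ r)‖ = z.v (φ r) := hι'.1 _
        have e2 : y.v r = z.v (φ r) := by
          rw [← (show Ber.res φ z = y from hz), Ber.res_v]
        rw [h1, e2, ← e1]
        rfl
      obtain ⟨e, he1, he2⟩ := exists_ext_completion ι (ι'.comp φ.toRingHom) hn (by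
        intro h ε hε
        obtain ⟨a, b, hb, hab⟩ := h2 h
        refine ⟨a, b, hb, ?_⟩
        rw [← hab, mul_div_assoc, div_self hb, mul_one, sub_self, norm_zero]
        exact hε)
      obtain ⟨F, hF1, hF2⟩ := h5 H e ι' (fun r => he2 r)
      refine ⟨⟨fun b => ‖F b‖, fun b => norm_nonneg _, ?_, ?_, ?_, ?_⟩, ?_⟩
      · show ‖F 1‖ = 1
        rw [map_one, norm_one]
      · intro a b
        show ‖F (a * b)‖ = _
        rw [map_mul, norm_mul]
      · intro a b
        show ‖F (a + b)‖ ≤ _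
        rw [map_add]
        exact IsUltrametricDist.norm_add_le_max _ _
      · intro c
        show ‖F (algebraMap κ B c)‖ = ‖c‖
        rw [hF1, he1]
      · apply Ber.ext_v
        intro a
        rw [Ber.comap_v]
        show ‖F (j a)‖ = _
        rw [hF2]
        exact hι'.1 a
  refine ⟨hj, ⟨hemb, ?_⟩, hrange⟩
  rw [hrange]
  exact isClosed_singleton.preimage (Ber.res_continuous φ)

end Pool.Agent.TD.Q
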