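import Pool.Agent.TD.Q.Basic
import Pool.Agent.TD.T.Stmts

/-!
# Section Q of PAPER2.md (MP_90358a_ag): statements

Finite and quasi-finite maps of Berkovich spectra: separation of points (Q1), transitivity of
finite groups (Q2), openness for normal rings (Q3), compact open sets (Q4)-(Q6), openness of
quasi-finite maps (Q7), the trace argument (Q8), maps of degree one (Q9).
-/

open scoped Topology NNReal
open Polynomial

namespace Pool.Agent.TD.Q

/-- (Q0) the fibre of `M(C) → M(R)` over `y` is `M_H(B)`, `H` the completed residue field of `y`,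
`B = H ⊗_R C`. -/
def Q0_Stmt : Prop := ∀ (K R C : Type) [NormedField K] [CommRing R] [CommRing C] [Algebra K R]
  [Algebra K C] (φ : R →ₐ[K] C) (y : Ber K R),
  ∃ (H B : Type) (_ : NormedField H) (_ : IsUltrametricDist H) (_ : CompleteSpace H)
    (_ : CommRing B) (_ : Algebra H B) (ι : R →+* H) (j : C →+* B),
    IsRes y ι ∧ (∀ r, j (φ r) = algebraMap H B (ι r)) ∧
    Submodule.span H (Set.range j) = ⊤ ∧
    (φ.toRingHom.IsIntegral → Algebra.IsIntegral H B) ∧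
    (φ.toRingHom.Finite → Module.Finite H B) ∧
    ∀ z : Ber K C, Ber.res φ z = y → ∃ w : Ber H B, ∀ c, w.v (j c) = z.v c

/-- (QU) points of `M_H(B)`, `B` integral over the complete field `H`, are determined by their
kernels, which are maximal ideals. -/
def QU_Stmt : Prop := ∀ (H B : Type) [NormedField H] [IsUltrametricDist H] [CompleteSpace H]
  [CommRing B] [Algebra H B] [Algebra.IsIntegral H B],
  (∀ w : Ber H B, w.ker.IsMaximal) ∧ ∀ w w' : Ber H B, w.ker = w'.ker → w = w'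

/-- (Q1) separation of points. -/
def Q1_Stmt : Prop := ∀ (K R C : Type) [NormedField K] [CommRing R] [CommRing C] [Algebra K R]
  [Algebra K C] (φ : R →ₐ[K] C), φ.toRingHom.IsIntegral → ∀ (y : Ber K R)
  (S₀ S₁ : Finset (Ber K C)), (∀ z ∈ S₀, Ber.res φ z = y) → (∀ z ∈ S₁, Ber.res φ z = y) →
  Disjoint S₀ S₁ → ∀ ε : ℝ, 0 < ε → ∃ (b : C) (r : R), y.v r ≠ 0 ∧
    (∀ z ∈ S₀, z.v (b - φ r) ≤ ε * y.v r) ∧ ∀ z ∈ S₁, z.v b ≤ ε * y.v r

/-- (QF) finite homomorphisms have finite fibres. -/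
def QF_Stmt : Prop := ∀ (K R C : Type) [NormedField K] [CommRing R] [CommRing C] [Algebra K R]
  [Algebra K C] (φ : R →ₐ[K] C), φ.toRingHom.Finite → ∀ y : Ber K R,
  {z : Ber K C | Ber.res φ z = y}.Finite

/-- (Q2) transitivity. -/
def Q2_Stmt : Prop := ∀ (K R C G : Type) [NormedField K] [CommRing R] [CommRing C] [Algebra K R]
  [Algebra K C] [Group G] [Finite G] (i : R →ₐ[K] C) (ρ : G →* (C ≃ₐ[K] C)), IsInv i ρ →
  ∀ z₁ z₂ : Ber K C, Ber.res i z₁ = Ber.res i z₂ → ∃ g, z₂ = act ρ g z₁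

/-- (Q2') openness for rings of invariants. -/
def Q2o_Stmt : Prop := ∀ (K R C G : Type) [NormedField K] [IsUltrametricDist K] [CommRing R]
  [CommRing C] [Algebra K R] [Algebra K C] [Group G] [Finite G] (i : R →ₐ[K] C)
  (ρ : G →* (C ≃ₐ[K] C)), IsInv i ρ → IsOpenMap (Ber.res i : Ber K C → Ber K R)

/-- (Q3c) the coefficients of a polynomial with small roots are small. -/
def Q3c_Stmt : Prop := ∀ (H L : Type) [NormedField H] [Field L] [Algebra H L] [IsAlgClosed L]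
  (N : Ber H L) (P : L[X]) (t : ℝ), P.Monic → 0 ≤ t → (∀ a, P.eval a = 0 → N.v a ≤ t) →
  ∀ k ≤ P.natDegree, N.v (P.coeff (P.natDegree - k)) ≤ t ^ k

/-- (Q3b) if `|b| ≤ t` at all points over `y`, then the coefficients of the minimal polynomial of
`b` are small at `y`. -/
def Q3b_Stmt : Prop := ∀ (K R C : Type) [NormedField K] [IsUltrametricDist K] [CommRing R]
  [CommRing C] [Algebra K R] [Algebra K C] [IsDomain R] [IsIntegrallyClosed R] [IsDomain C]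
  (φ : R →ₐ[K] C), Function.Injective φ → φ.toRingHom.IsIntegral → ∀ b : C,
  ∃ P : R[X], P.Monic ∧ P.eval₂ φ.toRingHom b = 0 ∧ ∀ (y : Ber K R) (t : ℝ), 0 ≤ t →
    (∀ z : Ber K C, Ber.res φ z = y → z.v b ≤ t) →
    ∀ k ≤ P.natDegree, y.v (P.coeff (P.natDegree - k)) ≤ t ^ k

/-- (Q3) openness, finite case. -/
def Q3a_Stmt : Prop := ∀ (K R C : Type) [NormedField K] [IsUltrametricDist K] [CommRing R]
  [CommRing C] [Algebra K R] [Algebra K C] [IsDomain R] [IsIntegrallyClosed R] [IsDomain C]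
  (φ : R →ₐ[K] C), Function.Injective φ → φ.toRingHom.Finite →
  IsOpenMap (Ber.res φ : Ber K C → Ber K R)

/-- (Q3) openness. -/
def Q3_Stmt : Prop := ∀ (K R C : Type) [NormedField K] [IsUltrametricDist K] [CommRing R]
  [CommRing C] [Algebra K R] [Algebra K C] [IsDomain R] [IsIntegrallyClosed R] [IsDomain C]
  (φ : R →ₐ[K] C), Function.Injective φ → φ.toRingHom.IsIntegral →
  IsOpenMap (Ber.res φ : Ber K C → Ber K R)

/-- (Q4)(iii) `M(A[X])` has no non-empty compact open subset. -/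
def Q4_Stmt : Prop := ∀ (K A : Type) [NormedField K] [IsUltrametricDist K] [CommRing A]
  [Algebra K A] (Ω : Set (Ber K A[X])), IsCompact Ω → IsOpen Ω → Ω = ∅

/-- (QE) embeddings: every element of `B` is a multiple by an element of the base field `κ` of an
element of `A`. -/
def QE_Stmt : Prop := ∀ (K κ A B : Type) [NormedField K] [NormedField κ] [CommRing A]
  [CommRing B] [Algebra K A] [Algebra κ B] (j : A →+* B)
  (hj : ∀ (w : Ber κ B) (c : K), w.v (j (algebraMap K A c)) = ‖c‖),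
  (∀ b : B, ∃ (s : κ) (a : A), b = s • j a) →
  Topology.IsEmbedding (Ber.comap j hj : Ber κ B → Ber K A)

/-- (QS) closed embeddings. -/
def QS_Stmt : Prop := ∀ (K A B : Type) [NormedField K] [CommRing A] [CommRing B] [Algebra K A]
  [Algebra K B] (φ : A →ₐ[K] B), Function.Surjective φ →
  Topology.IsClosedEmbedding (Ber.res φ : Ber K B → Ber K A) ∧
    Set.range (Ber.res φ : Ber K B → Ber K A) = {z | ∀ a, φ a = 0 → z.v a = 0}

/-- (Q5a) compact open sets, domains. -/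
def Q5a_Stmt : Prop := ∀ (κ B : Type) [NormedField κ] [IsUltrametricDist κ] [CommRing B]
  [IsDomain B] [Algebra κ B] [Algebra.FiniteType κ B] (Ω : Set (Ber κ B)), IsCompact Ω →
  IsOpen Ω → Ω.Nonempty → IsField B

/-- (Q5) compact open sets. -/
def Q5_Stmt : Prop := ∀ (κ B : Type) [NormedField κ] [IsUltrametricDist κ] [CommRing B]
  [Algebra κ B] [Algebra.FiniteType κ B] (Ω : Set (Ber κ B)), IsCompact Ω → IsOpen Ω →
  ∀ z ∈ Ω, Algebra.QuasiFiniteAt κ z.ker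

/-- (Q6a) the fibre over `y` is the spectrum of the algebra `B = κ ⊗_R A`, `κ` the residue field of
the kernel of `y`. -/
def Q6a_Stmt : Prop := ∀ (K R A κ B : Type) [NormedField K] [CommRing R] [CommRing A]
  [Algebra K R] [Algebra K A] [NormedField κ] [CommRing B] [Algebra κ B] (φ : R →ₐ[K] A)
  (y : Ber K R) (ι : R →+* κ) (j : A →+* B), (∀ r, ‖ι r‖ = y.v r) →
  (∀ x : κ, ∃ a b : R, ι b ≠ 0 ∧ x * ι b = ι a) → (∀ r, j (φ r) = algebraMap κ B (ι r)) →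
  Submodule.span κ (Set.range j) = ⊤ →
  (∀ (E : Type) [Field E] (e : κ →+* E) (f : A →+* E), (∀ r, e (ι r) = f (φ r)) →
    ∃ F : B →+* E, (∀ x, F (algebraMap κ B x) = e x) ∧ ∀ a, F (j a) = f a) →
  ∃ hj : ∀ (w : Ber κ B) (c : K), w.v (j (algebraMap K A c)) = ‖c‖,
    Topology.IsClosedEmbedding (Ber.comap j hj : Ber κ B → Ber K A) ∧
      Set.range (Ber.comap j hj : Ber κ B → Ber K A) = {z | Ber.res φ z = y}

/-- (Q6) compact open subsets of fibres. -/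
def Q6_Stmt : Prop := ∀ (K R A : Type) [NormedField K] [IsUltrametricDist K] [CommRing R]
  [CommRing A] [Algebra K R] [Algebra K A] (φ : R →ₐ[K] A), φ.toRingHom.FiniteType →
  ∀ (y : Ber K R) (U : Set (Ber K A)), IsOpen U → IsCompact (U ∩ {z | Ber.res φ z = y}) →
  ∀ z ∈ U, Ber.res φ z = y → Zmp φ z

/-- (Q7a) `ψ : C → A` with `C[1/g] = A[1/g]`. -/
def Q7a_Stmt : Prop := ∀ (K C A : Type) [NormedField K] [CommRing C] [CommRing A] [Algebra K C]
  [Algebra K A] (ψ : C →ₐ[K] A) (g : C), Function.Injective ψ →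
  (∀ x : A, ∃ (m : ℕ) (c : C), ψ g ^ m * x = ψ c) →
  (∀ w : Ber K C, w.v g ≠ 0 → ∃ z : Ber K A, Ber.res ψ z = w) ∧
  (∀ z z' : Ber K A, z.v (ψ g) ≠ 0 → Ber.res ψ z = Ber.res ψ z' → z = z') ∧
  ∀ z : Ber K A, z.v (ψ g) ≠ 0 → ∀ V ∈ 𝓝 z, Ber.res ψ '' V ∈ 𝓝 (Ber.res ψ z)

/-- (Q7) quasi-finite maps to normal spaces are open. -/
def Q7_Stmt : Prop := ∀ (K R A : Type) [NormedField K] [IsUltrametricDist K] [CommRing R]
  [CommRing A] [Algebra K R] [Algebra K A] [IsDomain R] [IsIntegrallyClosed R] [IsDomain A]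
  (φ : R →ₐ[K] A), Function.Injective φ → ∀ z : Ber K A, Zmp φ z →
  ∀ V ∈ 𝓝 z, Ber.res φ '' V ∈ 𝓝 (Ber.res φ z)

/-- (Q8) the trace argument. -/
def Q8_Stmt : Prop := ∀ (K R C G : Type) [NormedField K] [CommRing R] [CommRing C] [Algebra K R]
  [Algebra K C] [Group G] [Finite G] (i : R →ₐ[K] C) (ρ : G →* (C ≃ₐ[K] C)), IsInv i ρ →
  ∀ (z : Ber K C) (a : C), (∀ g, act ρ g z = z → ρ g a = a) → ∀ ε : ℝ, 0 < ε →
  ∃ b r : R, z.v (i r) ≠ 0 ∧ z.v (i r * a - i b) < ε * z.v (i r)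

/-! ### Degree one -/

/-- `A` is algebraic and separable over `R`. -/
def SepAlg {K R A : Type} [NormedField K] [CommRing R] [CommRing A] [Algebra K R] [Algebra K A]
    (φ : R →ₐ[K] A) : Prop :=
  ∀ a : A, ∃ P : R[X], (P.map (algebraMap R (FractionRing R))).Separable ∧
    P.eval₂ φ.toRingHom a = 0

/-- The algebraic data of (Q9): `C` is the integral closure of `R` in a Galois extension `L` of
`Frac R` containing `A`, with group `G`; `B = A·C ⊆ L`, `H = Gal(L/Frac A)`. -/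
structure DegData {K R A C B G : Type} [NormedField K] [CommRing R] [CommRing A] [CommRing C]
    [CommRing B] [Algebra K R] [Algebra K A] [Algebra K C] [Algebra K B] [Group G]
    (φ : R →ₐ[K] A) (i : R →ₐ[K] C) (α : A →ₐ[K] B) (γ : C →ₐ[K] B) (ρ : G →* (C ≃ₐ[K] C))
    (H : Subgroup G) (σ : H →* (B ≃ₐ[K] B)) : Prop where
  comm : ∀ r, α (φ r) = γ (i r)
  inv : IsInv i ρ
  inja : Function.Injective α
  injc : Function.Injective γ
  int : α.toRingHom.IsIntegral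
  gen : Algebra.adjoin K (Set.range α ∪ Set.range γ) = ⊤
  actc : ∀ (h : H) c, σ h (γ c) = γ (ρ h c)
  acta : ∀ (h : H) a, σ h (α a) = α a
  fix : ∀ c, (∀ h : H, ρ h c = c) → ∃ a₁ a₂ : A, a₂ ≠ 0 ∧ γ c * α a₂ = α a₁
  elt : ∀ a : A, φ.toRingHom.IsIntegralElem a → ∃ c, γ c = α a
  gal : ∀ t : G, (∀ c, (∀ h : H, ρ h c = c) → ρ t c = c) → t ∈ H
  alga : ∀ a : A, a ≠ 0 → ∃ (a' : A) (r : R), r ≠ 0 ∧ a * a' = φ r
  algc : ∀ c : C, c ≠ 0 → ∃ (c' : C) (r : R), r ≠ 0 ∧ c * c' = i r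

/-- The data of (Q9): `F` compact, open in the part of `M(A)` over `Z`. -/
structure FData {K R A : Type} [NormedField K] [CommRing R] [CommRing A] [Algebra K R]
    [Algebra K A] (φ : R →ₐ[K] A) (Z : Set (Ber K R)) (F : Set (Ber K A)) : Prop where
  closed : IsClosed Z
  comp : IsCompact F
  maps : ∀ z ∈ F, Ber.res φ z ∈ Z
  opn : ∀ z ∈ F, ∀ᶠ z' in 𝓝 z, Ber.res φ z' ∈ Z → z' ∈ F
  zmp : ∀ z ∈ F, Zmp φ z

/-- The data of (Q9) near the point `y₀`. -/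
structure YData {K R A : Type} [NormedField K] [CommRing R] [CommRing A] [Algebra K R]
    [Algebra K A] (φ : R →ₐ[K] A) (F V : Set (Ber K A)) (Y : Set (Ber K R)) (y₀ : Ber K R) :
    Prop where
  nhd : ∀ z ∈ F, V ∈ 𝓝 z
  cls : y₀ ∈ closure Y
  ker : ∀ y ∈ Y, ∀ r, y.v r = 0 → r = 0
  uniq : ∀ z ∈ V, ∀ z' ∈ V, Ber.res φ z ∈ Y → Ber.res φ z = Ber.res φ z' → z = z'
  dens : ∀ z ∈ V, Ber.res φ z ∈ Y → Dens φ z

/-- The set `W` of the proof of (Q9). -/
def WW {K A C B : Type} [NormedField K] [CommRing A] [CommRing C] [CommRing B] [Algebra K A]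
    [Algebra K C] [Algebra K B] (α : A →ₐ[K] B) (γ : C →ₐ[K] B) (F : Set (Ber K A)) :
    Set (Ber K C) :=
  {w | ∃ b : Ber K B, Ber.res α b ∈ F ∧ Ber.res γ b = w}

/-- (Q9g) the Galois extension. -/
def Q9g_Stmt : Prop := ∀ (K R A : Type) [NormedField K] [CommRing R] [CommRing A] [Algebra K R]
  [Algebra K A] [IsDomain R] [IsDomain A] (φ : R →ₐ[K] A), Function.Injective φ →
  φ.toRingHom.FiniteType → SepAlg φ → ∃ (L : Type) (_ : Field L)
    (_ : Algebra (FractionRing R) L) (j : A →+* L), IsGalois (FractionRing R) L ∧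
    FiniteDimensional (FractionRing R) L ∧ Function.Injective j ∧
    ∀ r, j (φ r) = algebraMap (FractionRing R) L (algebraMap R (FractionRing R) r)

/-- (Q9b) the algebraic data. -/
def Q9b_Stmt : Prop := ∀ (K R A : Type) [NormedField K] [CommRing R] [CommRing A] [Algebra K R]
  [Algebra K A] [IsDomain R] [IsIntegrallyClosed R] [IsDomain A] (φ : R →ₐ[K] A),
  Function.Injective φ → φ.toRingHom.FiniteType → SepAlg φ →
  ∃ (C B G : Type) (_ : CommRing C) (_ : Algebra K C) (_ : CommRing B) (_ : Algebra K B)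
    (_ : IsDomain B) (_ : Group G) (_ : Finite G) (i : R →ₐ[K] C) (α : A →ₐ[K] B)
    (γ : C →ₐ[K] B) (ρ : G →* (C ≃ₐ[K] C)) (H : Subgroup G) (σ : H →* (B ≃ₐ[K] B)),
    DegData φ i α γ ρ H σ

/-- (Q9k) the map `M(B) → M(C)` near the points over `F`. -/
def Q9k_Stmt : Prop := ∀ (K R A C B G : Type) [NormedField K] [CommRing R] [CommRing A]
  [CommRing C] [CommRing B] [Algebra K R] [Algebra K A] [Algebra K C] [Algebra K B] [Group G]
  (φ : R →ₐ[K] A) (i : R →ₐ[K] C) (α : A →ₐ[K] B) (γ : C →ₐ[K] B) (ρ : G →* (C ≃ₐ[K] C))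
  (H : Subgroup G) (σ : H →* (B ≃ₐ[K] B)), DegData φ i α γ ρ H σ → ∀ b : Ber K B,
  Zmp φ (Ber.res α b) → (∀ b' : Ber K B, Ber.res γ b = Ber.res γ b' → b = b') ∧
    (∀ V ∈ 𝓝 b, Ber.res γ '' V ∈ 𝓝 (Ber.res γ b)) ∧
    ∀ a : A, ∃ c₁ c₂ : C, (∀ h : H, ρ h c₁ = c₁) ∧ (∀ h : H, ρ h c₂ = c₂) ∧
      (Ber.res γ b).v c₂ ≠ 0 ∧ γ c₁ = γ c₂ * α a

/-- (Q9w) the set `W` is compact, open over `Z` and stable under `H`. -/
def Q9w_Stmt : Prop := ∀ (K R A C B G : Type) [NormedField K] [IsUltrametricDist K] [CommRing R]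
  [CommRing A] [CommRing C] [CommRing B] [Algebra K R] [Algebra K A] [Algebra K C] [Algebra K B]
  [Group G] (φ : R →ₐ[K] A) (i : R →ₐ[K] C) (α : A →ₐ[K] B) (γ : C →ₐ[K] B)
  (ρ : G →* (C ≃ₐ[K] C)) (H : Subgroup G) (σ : H →* (B ≃ₐ[K] B)), DegData φ i α γ ρ H σ →
  ∀ (Z : Set (Ber K R)) (F : Set (Ber K A)), FData φ Z F →
  IsCompact (WW α γ F) ∧ (∀ w ∈ WW α γ F, Ber.res i w ∈ Z) ∧
    (∀ w ∈ WW α γ F, ∀ᶠ w' in 𝓝 w, Ber.res i w' ∈ Z → w' ∈ WW α γ F) ∧
    ∀ w ∈ WW α γ F, ∀ h ∈ H, act ρ h w ∈ WW α γ F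

/-- (Q9d) the degree is constant. -/
def Q9d_Stmt : Prop := ∀ (K R C G : Type) [NormedField K] [IsUltrametricDist K] [CommRing R]
  [CommRing C] [Algebra K R] [Algebra K C] [Group G] [Finite G] (i : R →ₐ[K] C)
  (ρ : G →* (C ≃ₐ[K] C)), IsInv i ρ → ∀ Z : Set (Ber K R), IsPreconnected Z →
  ∀ W : Set (Ber K C), IsClosed W →
  (∀ w ∈ W, ∀ᶠ w' in 𝓝 w, Ber.res i w' ∈ Z → w' ∈ W) → ∀ w w' : Ber K C,
  Ber.res i w ∈ Z → Ber.res i w' ∈ Z →
  {g : G | act ρ g w ∈ W}.ncard = {g : G | act ρ g w' ∈ W}.ncard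

/-- (Q9e) the degree at `y₀`. -/
def Q9e_Stmt : Prop := ∀ (K R A C B G : Type) [NormedField K] [IsUltrametricDist K] [CommRing R]
  [CommRing A] [CommRing C] [CommRing B] [Algebra K R] [Algebra K A] [Algebra K C] [Algebra K B]
  [IsDomain B] [Group G] [Finite G] (φ : R →ₐ[K] A) (i : R →ₐ[K] C) (α : A →ₐ[K] B)
  (γ : C →ₐ[K] B) (ρ : G →* (C ≃ₐ[K] C)) (H : Subgroup G) (σ : H →* (B ≃ₐ[K] B)),
  DegData φ i α γ ρ H σ → ∀ (Z : Set (Ber K R)) (F V : Set (Ber K A)) (Y : Set (Ber K R))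
  (y₀ : Ber K R), FData φ Z F → YData φ F V Y y₀ → ∀ w ∈ WW α γ F, Ber.res i w = y₀ →
  {g : G | act ρ g w ∈ WW α γ F} = (H : Set G)

/-- (Q9f) the conclusion for given algebraic data. -/
def Q9f_Stmt : Prop := ∀ (K R A C B G : Type) [NormedField K] [IsUltrametricDist K] [CommRing R]
  [CommRing A] [CommRing C] [CommRing B] [Algebra K R] [Algebra K A] [Algebra K C] [Algebra K B]
  [IsDomain B] [Group G] [Finite G] (φ : R →ₐ[K] A) (i : R →ₐ[K] C) (α : A →ₐ[K] B)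
  (γ : C →ₐ[K] B) (ρ : G →* (C ≃ₐ[K] C)) (H : Subgroup G) (σ : H →* (B ≃ₐ[K] B)),
  DegData φ i α γ ρ H σ → ∀ (Z : Set (Ber K R)) (F V : Set (Ber K A)) (Y : Set (Ber K R))
  (y₀ : Ber K R), FData φ Z F → IsPreconnected Z → YData φ F V Y y₀ →
  y₀ ∈ Ber.res φ '' F → Set.InjOn (Ber.res φ : Ber K A → Ber K R) F ∧ Ber.res φ '' F = Z ∧
    ∀ z ∈ F, Dens φ z

/-- (Q9) maps of degree one. -/
def Q9_Stmt : Prop := ∀ (K R A : Type) [NormedField K] [IsUltrametricDist K] [CommRing R]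
  [CommRing A] [Algebra K R] [Algebra K A] [IsDomain R] [IsIntegrallyClosed R] [IsDomain A]
  (φ : R →ₐ[K] A), Function.Injective φ → φ.toRingHom.FiniteType → SepAlg φ →
  ∀ (Z : Set (Ber K R)) (F V : Set (Ber K A)) (Y : Set (Ber K R)) (y₀ : Ber K R),
  FData φ Z F → IsPreconnected Z → YData φ F V Y y₀ → y₀ ∈ Ber.res φ '' F →
  Set.InjOn (Ber.res φ : Ber K A → Ber K R) F ∧ Ber.res φ '' F = Z ∧ ∀ z ∈ F, Dens φ z

end Pool.Agent.TD.Q
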